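import Mathlib

namespace Pool.Agent.H88.Cao

/-- `(U + √(-E))^n = A n + W n * √(-E)` as a pair of integers. -/
def AW (U E : ℤ) : ℕ → ℤ × ℤ
  | 0 => (1, 0)
  | n + 1 => (U * (AW U E n).1 - E * (AW U E n).2, (AW U E n).1 + U * (AW U E n).2)

def A (U E : ℤ) (n : ℕ) : ℤ := (AW U E n).1
def W (U E : ℤ) (n : ℕ) : ℤ := (AW U E n).2

lemma A_zero (U E : ℤ) : A U E 0 = 1 := rfl
lemma W_zero (U E : ℤ) : W U E 0 = 0 := rfl
lemma A_succ (U E : ℤ) (n : ℕ) : A U E (n + 1) = U * A U E n - E * W U E n := rfl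
lemma W_succ (U E : ℤ) (n : ℕ) : W U E (n + 1) = A U E n + U * W U E n := rfl
lemma A_one (U E : ℤ) : A U E 1 = U := by rw [A_succ, A_zero, W_zero]; ring
lemma W_one (U E : ℤ) : W U E 1 = 1 := by rw [W_succ, A_zero, W_zero]; ring

lemma AW_add (U E : ℤ) (m n : ℕ) :
    A U E (m + n) = A U E m * A U E n - E * W U E m * W U E n ∧
    W U E (m + n) = A U E m * W U E n + W U E m * A U E n := by
  induction n with
  | zero => simp [A_zero, W_zero]
  | succ n ih =>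
    obtain ⟨h1, h2⟩ := ih
    rw [← Nat.add_assoc, A_succ, W_succ, A_succ, W_succ, h1, h2]
    constructor <;> ring

lemma AW_norm (U E : ℤ) (n : ℕ) : A U E n ^ 2 + E * W U E n ^ 2 = (U ^ 2 + E) ^ n := by
  induction n with
  | zero => simp [A_zero, W_zero]
  | succ n ih =>
    rw [pow_succ (U ^ 2 + E), ← ih, A_succ, W_succ]
    ring

lemma AW_mul (U E : ℤ) (m n : ℕ) :
    A U E (m * n) = A (A U E m) (E * W U E m ^ 2) n ∧
    W U E (m * n) = W U E m * W (A U E m) (E * W U E m ^ 2) n := by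
  induction n with
  | zero => simp [A_zero, W_zero]
  | succ n ih =>
    obtain ⟨h1, h2⟩ := ih
    obtain ⟨h3, h4⟩ := AW_add U E (m * n) m
    rw [Nat.mul_succ, h3, h4, h1, h2, A_succ, W_succ]
    constructor <;> ring

lemma AW_modE (U E : ℤ) (n : ℕ) :
    A U E n ≡ U ^ n [ZMOD E] ∧ U * W U E n ≡ n * U ^ n [ZMOD E] := by
  induction n with
  | zero => simp [A_zero, W_zero]
  | succ n ih =>
    obtain ⟨h1, h2⟩ := ih
    rw [A_succ, W_succ]
    constructor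
    · have h3 : U * A U E n - E * W U E n ≡ U * U ^ n - 0 [ZMOD E] := by
        apply Int.ModEq.sub (h1.mul_left U)
        exact (Int.modEq_zero_iff_dvd.2 (Dvd.intro _ rfl))
      rw [sub_zero] at h3
      rw [pow_succ, mul_comm (U ^ n)]
      exact h3
    · have h3 : U * (A U E n + U * W U E n) = U * A U E n + U * (U * W U E n) := by ring
      rw [h3]
      have h4 : U * A U E n + U * (U * W U E n) ≡ U * U ^ n + U * (n * U ^ n) [ZMOD E] :=
        (h1.mul_left U).add (h2.mul_left U)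
      refine h4.trans ?_
      have h5 : U * U ^ n + U * (n * U ^ n) = ((n + 1 : ℕ) : ℤ) * U ^ (n + 1) := by
        push_cast; ring
      rw [h5]

/-- second order congruences -/
lemma AW_modE2 (U E : ℤ) (n : ℕ) :
    (E ^ 2 ∣ U ^ 2 * A U E n - (U ^ (n + 2) - (n.choose 2 : ℤ) * U ^ n * E)) ∧
    (E ^ 2 ∣ U ^ 3 * W U E n - (n * U ^ (n + 2) - (n.choose 3 : ℤ) * U ^ n * E)) := by
  induction n with
  | zero => simp [A_zero, W_zero]
  | succ n ih =>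
    obtain ⟨h1, h2⟩ := ih
    have h0 : E ∣ U * W U E n - n * U ^ n := by
      have := (AW_modE U E n).2
      exact this.symm.dvd
    have c2 : ((n + 1).choose 2 : ℤ) = n + n.choose 2 := by
      rw [Nat.choose_succ_succ' n 1]
      push_cast [Nat.choose_one_right]
      ring
    have c3 : ((n + 1).choose 3 : ℤ) = n.choose 2 + n.choose 3 := by
      rw [Nat.choose_succ_succ' n 2]
      push_cast
      ring
    rw [A_succ, W_succ, c2, c3]
    constructor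
    · have e : U ^ 2 * (U * A U E n - E * W U E n) -
          (U ^ (n + 1 + 2) - (n + (n.choose 2 : ℤ)) * U ^ (n + 1) * E) =
          U * (U ^ 2 * A U E n - (U ^ (n + 2) - (n.choose 2 : ℤ) * U ^ n * E)) -
            U * (E * (U * W U E n - n * U ^ n)) := by ring
      rw [e]
      apply dvd_sub (h1.mul_left U)
      apply Dvd.dvd.mul_left
      rw [sq]
      exact mul_dvd_mul_left E h0
    · have e : U ^ 3 * (A U E n + U * W U E n) -
          (((n + 1 : ℕ) : ℤ) * U ^ (n + 1 + 2) -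
            ((n.choose 2 : ℤ) + (n.choose 3 : ℤ)) * U ^ (n + 1) * E) =
          U * (U ^ 2 * A U E n - (U ^ (n + 2) - (n.choose 2 : ℤ) * U ^ n * E)) +
          U * (U ^ 3 * W U E n - (n * U ^ (n + 2) - (n.choose 3 : ℤ) * U ^ n * E)) := by
        push_cast; ring
      rw [e]
      exact dvd_add (h1.mul_left U) (h2.mul_left U)

/-- if `q ∣ U² + E` then `W (n+1) ≡ (2U)^n mod q`. -/
lemma W_modq (U E q : ℤ) (hq : q ∣ U ^ 2 + E) (n : ℕ) :
    W U E (n + 1) ≡ (2 * U) ^ n [ZMOD q] := by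
  induction n with
  | zero => rw [zero_add, W_one, pow_zero]
  | succ n ih =>
    have e : W U E (n + 1 + 1) = 2 * U * W U E (n + 1) - (U ^ 2 + E) * W U E n := by
      rw [W_succ U E (n + 1), A_succ, W_succ]; ring
    have h3 : 2 * U * W U E (n + 1) - (U ^ 2 + E) * W U E n ≡ 2 * U * (2 * U) ^ n - 0 [ZMOD q] := by
      apply Int.ModEq.sub (ih.mul_left _)
      exact Int.modEq_zero_iff_dvd.2 (hq.mul_right _)
    rw [e, pow_succ (2 * U) n, mul_comm ((2 * U) ^ n)]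
    rw [sub_zero] at h3
    exact h3

lemma W_p_val (p : ℕ) (hp : p.Prime) (p5 : 5 ≤ p) (U E : ℤ) (hE : (p : ℤ) ∣ E)
    (hU : ¬ (p : ℤ) ∣ U) : ∃ w : ℤ, W U E p = p * w ∧ ¬ (p : ℤ) ∣ w := by
  have hpZ : Prime (p : ℤ) := Nat.prime_iff_prime_int.1 hp
  have h2 := (AW_modE2 U E p).2
  have hp2 : ((p : ℤ)) ^ 2 ∣ E ^ 2 := pow_dvd_pow_of_dvd hE 2
  have h3 : (p : ℤ) ^ 2 ∣ U ^ 3 * W U E p - (p * U ^ (p + 2) - (p.choose 3 : ℤ) * U ^ p * E) :=
    hp2.trans h2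
  have hc : (p : ℤ) ∣ (p.choose 3 : ℤ) := by
    have := hp.dvd_choose_self (k := 3) (by norm_num) (by omega)
    exact_mod_cast this
  have h4 : (p : ℤ) ^ 2 ∣ (p.choose 3 : ℤ) * U ^ p * E := by
    obtain ⟨a, ha⟩ := hc
    obtain ⟨b, hb⟩ := hE
    exact ⟨a * U ^ p * b, by rw [ha, hb]; ring⟩
  have h5 : (p : ℤ) ^ 2 ∣ U ^ 3 * W U E p - p * U ^ (p + 2) := by
    have := dvd_sub h3 h4
    have e : U ^ 3 * W U E p - (p * U ^ (p + 2) - (p.choose 3 : ℤ) * U ^ p * E) -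
      (p.choose 3 : ℤ) * U ^ p * E = U ^ 3 * W U E p - p * U ^ (p + 2) := by ring
    rwa [e] at this
  have hU3 : ¬ (p : ℤ) ∣ U ^ 3 := fun h => hU (hpZ.dvd_of_dvd_pow h)
  have h6 : (p : ℤ) ∣ W U E p := by
    have h7 : (p : ℤ) ∣ U ^ 3 * W U E p := by
      have h8 : (p : ℤ) ∣ U ^ 3 * W U E p - p * U ^ (p + 2) :=
        (dvd_pow_self (p : ℤ) (two_ne_zero)).trans h5
      have h9 : (p : ℤ) ∣ p * U ^ (p + 2) := Dvd.intro _ rfl
      have := dvd_add h8 h9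
      rwa [sub_add_cancel] at this
    exact (hpZ.dvd_or_dvd h7).resolve_left hU3
  obtain ⟨w, hw⟩ := h6
  refine ⟨w, hw, ?_⟩
  intro hpw
  obtain ⟨v, hv⟩ := hpw
  rw [hw, hv] at h5
  obtain ⟨c, hc'⟩ := h5
  have hp0 : (p : ℤ) ≠ 0 := by exact_mod_cast hp.ne_zero
  have h10 : (p : ℤ) * U ^ (p + 2) = p * (p * (U ^ 3 * v - c)) := by linarith
  have h11 : U ^ (p + 2) = p * (U ^ 3 * v - c) := mul_left_cancel₀ hp0 h10
  exact hU (hpZ.dvd_of_dvd_pow (Dvd.intro _ h11.symm))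

lemma pow_dvd_W (p : ℕ) (hp : p.Prime) (p5 : 5 ≤ p) (k : ℕ) : ∀ (n : ℕ) (U E : ℤ),
    (p : ℤ) ∣ E → ¬ (p : ℤ) ∣ U → (p : ℤ) ^ k ∣ W U E n → p ^ k ∣ n := by
  have hpZ : Prime (p : ℤ) := Nat.prime_iff_prime_int.1 hp
  have hp0 : (p : ℤ) ≠ 0 := by exact_mod_cast hp.ne_zero
  induction k with
  | zero => intro n U E _ _ _; simp
  | succ k ih =>
    intro n U E hE hU hd
    have h1 : (p : ℤ) ∣ W U E n := (dvd_pow_self (p : ℤ) (Nat.succ_ne_zero k)).trans hd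
    have h2 : U * W U E n ≡ n * U ^ n [ZMOD p] := (AW_modE U E n).2.of_dvd hE
    have h3 : (p : ℤ) ∣ n * U ^ n := by
      have h4 : (p : ℤ) ∣ U * W U E n := h1.mul_left U
      exact (Int.ModEq.dvd_iff h2).1 h4
    have h5 : (p : ℤ) ∣ (n : ℤ) := by
      rcases hpZ.dvd_or_dvd h3 with h | h
      · exact h
      · exact absurd (hpZ.dvd_of_dvd_pow h) hU
    obtain ⟨n', hn'⟩ : p ∣ n := by exact_mod_cast h5
    obtain ⟨w, hw, hpw⟩ := W_p_val p hp p5 U E hE hU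
    have h6 := (AW_mul U E p n').2
    rw [hn', h6, hw] at hd
    have h7 : (p : ℤ) ^ k ∣ w * W (A U E p) (E * W U E p ^ 2) n' := by
      rw [pow_succ, mul_comm ((p : ℤ) ^ k)] at hd
      have e : (p : ℤ) * w * W (A U E p) (E * (↑p * w) ^ 2) n' =
        p * (w * W (A U E p) (E * (↑p * w) ^ 2) n') := by ring
      rw [e] at hd
      rw [hw]
      exact (mul_dvd_mul_iff_left hp0).1 hd
    have h8 : (p : ℤ) ^ k ∣ W (A U E p) (E * W U E p ^ 2) n' :=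
      hpZ.pow_dvd_of_dvd_mul_left k hpw h7
    have h9 : ¬ (p : ℤ) ∣ A U E p := by
      intro h
      have h10 : A U E p ≡ U ^ p [ZMOD p] := (AW_modE U E p).1.of_dvd hE
      exact hU (hpZ.dvd_of_dvd_pow ((Int.ModEq.dvd_iff h10).1 h))
    have h11 := ih n' (A U E p) (E * W U E p ^ 2) (hE.mul_right _) h9 h8
    rw [hn', pow_succ, mul_comm]
    exact mul_dvd_mul_left p h11


lemma aux_norm (Q X Y D : ℤ) (hQ : 0 < Q) (hD : 1 ≤ D) (hd : Q ∣ X)
    (h : Y ^ 2 + D * X ^ 2 = Q ^ 2) : X = 0 ∨ (Y = 0 ∧ D = 1) := by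
  obtain ⟨t, rfl⟩ := hd
  by_cases ht : t = 0
  · left; rw [ht, mul_zero]
  · right
    have ht2 : 1 ≤ t ^ 2 := by
      have := sq_nonneg t
      have : 0 < t ^ 2 := by positivity
      omega
    have hQ2 : 0 < Q ^ 2 := by positivity
    have h1 : D * (Q * t) ^ 2 = D * t ^ 2 * Q ^ 2 := by ring
    rw [h1] at h
    have hDt : 1 ≤ D * t ^ 2 := by nlinarith
    have h2 : Y ^ 2 = (1 - D * t ^ 2) * Q ^ 2 := by linarith
    have h3 : 0 ≤ Y ^ 2 := sq_nonneg Y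
    have h4 : 1 - D * t ^ 2 = 0 := by
      by_contra hne
      have : 1 - D * t ^ 2 < 0 := by omega
      have : (1 - D * t ^ 2) * Q ^ 2 < 0 := mul_neg_of_neg_of_pos this hQ2
      omega
    rw [h4, zero_mul] at h2
    refine ⟨by simpa using h2, ?_⟩
    have h5 : D * t ^ 2 = 1 := by omega
    have h6 : D ∣ 1 := Dvd.intro _ h5
    have := Int.le_of_dvd one_pos h6
    omega

lemma unique_rep_aux (q : ℕ) (hq : q.Prime) (k : ℕ) (D A B A' B' : ℤ) (hD : 1 ≤ D)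
    (h : A ^ 2 + D * B ^ 2 = (q : ℤ) ^ k) (h' : A' ^ 2 + D * B' ^ 2 = (q : ℤ) ^ k)
    (hn : ¬ (q : ℤ) ∣ 2 * A * B') :
    (A ^ 2 = A' ^ 2 ∧ B ^ 2 = B' ^ 2) ∨ (D = 1 ∧ (A * A' + B * B' = 0 ∨ A * A' - B * B' = 0)) := by
  have hqZ : Prime (q : ℤ) := Nat.prime_iff_prime_int.1 hq
  have hQ : (0 : ℤ) < (q : ℤ) ^ k := by
    have : (0 : ℤ) < q := by exact_mod_cast hq.pos
    positivity
  have key : (A * B' - A' * B) * (A * B' + A' * B) = (q : ℤ) ^ k * (B' ^ 2 - B ^ 2) := by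
    linear_combination B' ^ 2 * h - B ^ 2 * h'
  have fin : A ^ 2 * B' ^ 2 = A' ^ 2 * B ^ 2 → (A ^ 2 = A' ^ 2 ∧ B ^ 2 = B' ^ 2) := by
    intro he
    have h1 : (q : ℤ) ^ k * (B' ^ 2 - B ^ 2) = 0 := by
      rw [← key]; linear_combination he
    have h2 : B' ^ 2 - B ^ 2 = 0 := (mul_eq_zero.1 h1).resolve_left hQ.ne'
    have h3 : B ^ 2 = B' ^ 2 := by linarith
    refine ⟨?_, h3⟩
    rw [h3] at h
    linarith
  by_cases h1 : (q : ℤ) ∣ A * B' - A' * B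
  · have h2 : ¬ (q : ℤ) ∣ A * B' + A' * B := by
      intro h3
      apply hn
      have := dvd_add h1 h3
      have e : A * B' - A' * B + (A * B' + A' * B) = 2 * A * B' := by ring
      rwa [e] at this
    have h3 : (q : ℤ) ^ k ∣ A * B' - A' * B :=
      hqZ.pow_dvd_of_dvd_mul_right k h2 (by rw [key]; exact Dvd.intro _ rfl)
    have h4 : (A * A' + D * B * B') ^ 2 + D * (A * B' - A' * B) ^ 2 = ((q : ℤ) ^ k) ^ 2 := by
      have : ((q : ℤ) ^ k) ^ 2 = (A ^ 2 + D * B ^ 2) * (A' ^ 2 + D * B' ^ 2) := by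
        rw [h, h']; ring
      rw [this]; ring
    rcases aux_norm _ _ _ D hQ hD h3 h4 with h5 | ⟨h5, h6⟩
    · left
      apply fin
      have : A * B' = A' * B := by linarith
      calc A ^ 2 * B' ^ 2 = (A * B') ^ 2 := by ring
        _ = (A' * B) ^ 2 := by rw [this]
        _ = _ := by ring
    · right
      refine ⟨h6, Or.inl ?_⟩
      rw [h6] at h5
      linarith
  · have h3 : (q : ℤ) ^ k ∣ A * B' + A' * B :=
      hqZ.pow_dvd_of_dvd_mul_left k h1 (by rw [key]; exact Dvd.intro _ rfl)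
    have h4 : (A * A' - D * B * B') ^ 2 + D * (A * B' + A' * B) ^ 2 = ((q : ℤ) ^ k) ^ 2 := by
      have : ((q : ℤ) ^ k) ^ 2 = (A ^ 2 + D * B ^ 2) * (A' ^ 2 + D * B' ^ 2) := by
        rw [h, h']; ring
      rw [this]; ring
    rcases aux_norm _ _ _ D hQ hD h3 h4 with h5 | ⟨h5, h6⟩
    · left
      apply fin
      have : A * B' = -(A' * B) := by linarith
      calc A ^ 2 * B' ^ 2 = (A * B') ^ 2 := by ring
        _ = (-(A' * B)) ^ 2 := by rw [this]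
        _ = _ := by ring
    · right
      refine ⟨h6, Or.inr ?_⟩
      rw [h6] at h5
      linarith

lemma unique_rep (q : ℕ) (hq : q.Prime) (k : ℕ) (D A B A' B' : ℤ) (hD : 2 ≤ D)
    (h : A ^ 2 + D * B ^ 2 = (q : ℤ) ^ k) (h' : A' ^ 2 + D * B' ^ 2 = (q : ℤ) ^ k)
    (hn : ¬ (q : ℤ) ∣ 2 * A * B') : A ^ 2 = A' ^ 2 ∧ B ^ 2 = B' ^ 2 := by
  rcases unique_rep_aux q hq k D A B A' B' (by omega) h h' hn with h1 | ⟨h1, _⟩
  · exact h1
  · omega

lemma unique_rep_one (q : ℕ) (hq : q.Prime) (k : ℕ) (A B A' B' : ℤ)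
    (h : A ^ 2 + B ^ 2 = (q : ℤ) ^ k) (h' : A' ^ 2 + B' ^ 2 = (q : ℤ) ^ k)
    (hn : ¬ (q : ℤ) ∣ 2 * A * B') (hA : Odd A) (hA' : Odd A') (hB : Even B) :
    A ^ 2 = A' ^ 2 ∧ B ^ 2 = B' ^ 2 := by
  rcases unique_rep_aux q hq k 1 A B A' B' le_rfl (by rw [one_mul]; exact h)
    (by rw [one_mul]; exact h') hn with h1 | ⟨_, h1 | h1⟩
  · exact h1
  · exfalso
    have h2 : Odd (A * A' + B * B') := (hA.mul hA').add_even (hB.mul_right _)
    rw [h1] at h2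
    exact absurd h2 (by decide)
  · exfalso
    have h2 : Odd (A * A' - B * B') := (hA.mul hA').sub_even (hB.mul_right _)
    rw [h1] at h2
    exact absurd h2 (by decide)


/-- The two parameters attached to a representation `2^x + p^y`. -/
def Up (p x y : ℕ) : ℤ := 2 ^ x - (p : ℤ) ^ y
def Ep (p x y : ℕ) : ℤ := 4 * 2 ^ x * (p : ℤ) ^ y

lemma UE_norm {p q x y z : ℕ} (h : 2 ^ x + p ^ y = q ^ z) :
    Up p x y ^ 2 + Ep p x y = (q : ℤ) ^ (2 * z) := by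
  have h' : (2 : ℤ) ^ x + (p : ℤ) ^ y = (q : ℤ) ^ z := by exact_mod_cast h
  rw [pow_mul', ← h', Up, Ep]
  ring

lemma not_dvd_Ep {p q x y : ℕ} (hp : p.Prime) (hq : q.Prime) (q5 : 5 ≤ q) (hpq : p ≠ q) :
    ¬ (q : ℤ) ∣ Ep p x y := by
  have hqZ : Prime (q : ℤ) := Nat.prime_iff_prime_int.1 hq
  intro h
  unfold Ep at h
  rcases hqZ.dvd_or_dvd h with h | h
  · have h2 : (q : ℤ) ∣ 2 ^ (x + 2) := by
      have e : (2 : ℤ) ^ (x + 2) = 4 * 2 ^ x := by ring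
      rwa [e]
    have h3 := hqZ.dvd_of_dvd_pow h2
    have h4 : q ∣ 2 := by exact_mod_cast h3
    have := Nat.le_of_dvd (by norm_num) h4
    omega
  · have h3 := hqZ.dvd_of_dvd_pow h
    have h4 : q ∣ p := by exact_mod_cast h3
    exact hpq ((Nat.prime_dvd_prime_iff_eq hq hp).1 h4).symm

lemma not_dvd_Up {p q x y z : ℕ} (hq : q.Prime) (q5 : 5 ≤ q) (hz : 0 < z)
    (h : 2 ^ x + p ^ y = q ^ z) : ¬ (q : ℤ) ∣ 2 * Up p x y := by
  have hqZ : Prime (q : ℤ) := Nat.prime_iff_prime_int.1 hq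
  have h' : (2 : ℤ) ^ x + (p : ℤ) ^ y = (q : ℤ) ^ z := by exact_mod_cast h
  intro hd
  have h1 : (q : ℤ) ∣ 2 * ((2 : ℤ) ^ x + (p : ℤ) ^ y) := by
    rw [h']; exact (dvd_pow_self _ hz.ne').mul_left _
  have h2 : (q : ℤ) ∣ 2 ^ (x + 2) := by
    have h3 := dvd_add hd h1
    have e : 2 * Up p x y + 2 * ((2 : ℤ) ^ x + (p : ℤ) ^ y) = 2 ^ (x + 2) := by
      unfold Up; ring
    rwa [e] at h3
  have h3 := hqZ.dvd_of_dvd_pow h2
  have h4 : q ∣ 2 := by exact_mod_cast h3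
  have := Nat.le_of_dvd (by norm_num) h4
  omega

lemma not_dvd_W {p q x y z : ℕ} (hq : q.Prime) (q5 : 5 ≤ q) (hz : 0 < z)
    (h : 2 ^ x + p ^ y = q ^ z) (n : ℕ) (hn : 0 < n) :
    ¬ (q : ℤ) ∣ W (Up p x y) (Ep p x y) n := by
  have hqZ : Prime (q : ℤ) := Nat.prime_iff_prime_int.1 hq
  obtain ⟨k, rfl⟩ : ∃ k, n = k + 1 := ⟨n - 1, by omega⟩
  intro hd
  have h1 : (q : ℤ) ∣ Up p x y ^ 2 + Ep p x y := by
    rw [UE_norm h]; exact dvd_pow_self _ (by omega)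
  have h2 := W_modq _ _ _ h1 k
  have h3 := (Int.ModEq.dvd_iff h2).1 hd
  exact not_dvd_Up hq q5 hz h (hqZ.dvd_of_dvd_pow h3)

lemma not_dvd_A {p q x y z : ℕ} (hp : p.Prime) (hq : q.Prime) (q5 : 5 ≤ q) (hpq : p ≠ q)
    (hz : 0 < z) (h : 2 ^ x + p ^ y = q ^ z) (n : ℕ) (hn : 0 < n) :
    ¬ (q : ℤ) ∣ A (Up p x y) (Ep p x y) n := by
  have hqZ : Prime (q : ℤ) := Nat.prime_iff_prime_int.1 hq
  intro hd
  have h1 := AW_norm (Up p x y) (Ep p x y) n
  rw [UE_norm h] at h1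
  have h2 : (q : ℤ) ∣ ((q : ℤ) ^ (2 * z)) ^ n := by
    rw [← pow_mul]
    exact dvd_pow_self _ (by positivity)
  rw [← h1] at h2
  have h3 : (q : ℤ) ∣ Ep p x y * W (Up p x y) (Ep p x y) n ^ 2 := by
    have h4 : (q : ℤ) ∣ A (Up p x y) (Ep p x y) n ^ 2 := hd.trans (dvd_pow_self _ two_ne_zero)
    exact (dvd_add_right h4).1 h2
  rcases hqZ.dvd_or_dvd h3 with h4 | h4
  · exact not_dvd_Ep hp hq q5 hpq h4
  · exact not_dvd_W hq q5 hz h n hn (hqZ.dvd_of_dvd_pow h4)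

lemma Ep_eq {p x y : ℕ} (hy : y % 2 = 1) :
    Ep p x y = (2 ^ (x % 2) * p) * (2 * 2 ^ (x / 2) * (p : ℤ) ^ (y / 2)) ^ 2 := by
  have hx : x = x % 2 + 2 * (x / 2) := by omega
  have hy' : y = 1 + 2 * (y / 2) := by omega
  have e1 : (2 : ℤ) ^ x = 2 ^ (x % 2) * (2 ^ (x / 2)) ^ 2 := by
    conv_lhs => rw [hx]
    rw [pow_add, pow_mul']
  have e2 : (p : ℤ) ^ y = p * ((p : ℤ) ^ (y / 2)) ^ 2 := by
    conv_lhs => rw [hy']
    rw [pow_add, pow_mul', pow_one]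
  rw [Ep, e1, e2]
  ring

lemma lemC_core {p q x y z x' y' z' : ℕ} (hp : p.Prime) (hq : q.Prime) (q5 : 5 ≤ q)
    (hpq : p ≠ q) (hz : 0 < z) (hz' : 0 < z') (hy : y % 2 = 1) (hy' : y' % 2 = 1)
    (hxx : x % 2 = x' % 2) (h : 2 ^ x + p ^ y = q ^ z) (h' : 2 ^ x' + p ^ y' = q ^ z')
    (n m : ℕ) (hn : 0 < n) (hm : 0 < m) (hnm : z * n = z' * m) :
    A (Up p x y) (Ep p x y) n ^ 2 = A (Up p x' y') (Ep p x' y') m ^ 2 ∧
    Ep p x y * W (Up p x y) (Ep p x y) n ^ 2 =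
      Ep p x' y' * W (Up p x' y') (Ep p x' y') m ^ 2 := by
  have hqZ : Prime (q : ℤ) := Nat.prime_iff_prime_int.1 hq
  have n1 := AW_norm (Up p x y) (Ep p x y) n
  have n2 := AW_norm (Up p x' y') (Ep p x' y') m
  rw [UE_norm h, ← pow_mul] at n1
  rw [UE_norm h', ← pow_mul] at n2
  have e : 2 * z' * m = 2 * z * n := by rw [mul_assoc, mul_assoc, hnm]
  rw [e] at n2
  have d1 := Ep_eq (p := p) (x := x) hy
  have d2 := Ep_eq (p := p) (x := x') hy'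
  rw [← hxx] at d2
  set D : ℤ := 2 ^ (x % 2) * p with hD
  set V : ℤ := 2 * 2 ^ (x / 2) * (p : ℤ) ^ (y / 2) with hV
  set V' : ℤ := 2 * 2 ^ (x' / 2) * (p : ℤ) ^ (y' / 2) with hV'
  have hD2 : 2 ≤ D := by
    have h1 : (2 : ℤ) ≤ p := by exact_mod_cast hp.two_le
    have h2 : (1 : ℤ) ≤ 2 ^ (x % 2) := one_le_pow₀ (by norm_num)
    nlinarith
  have hnd : ¬ (q : ℤ) ∣ 2 * A (Up p x y) (Ep p x y) n *
      (V' * W (Up p x' y') (Ep p x' y') m) := by
    intro hd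
    rcases hqZ.dvd_or_dvd hd with hd | hd
    · rcases hqZ.dvd_or_dvd hd with hd | hd
      · have h4 : q ∣ 2 := by exact_mod_cast hd
        have := Nat.le_of_dvd (by norm_num) h4
        omega
      · exact not_dvd_A hp hq q5 hpq hz h n hn hd
    · rcases hqZ.dvd_or_dvd hd with hd | hd
      · apply not_dvd_Ep (x := x') (y := y') hp hq q5 hpq
        rw [d2]
        exact (hd.trans (dvd_pow_self _ two_ne_zero)).mul_left _
      · exact not_dvd_W hq q5 hz' h' m hm hd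
  have key := unique_rep q hq (2 * z * n) D (A (Up p x y) (Ep p x y) n)
    (V * W (Up p x y) (Ep p x y) n) (A (Up p x' y') (Ep p x' y') m)
    (V' * W (Up p x' y') (Ep p x' y') m) hD2
    (by linear_combination n1 - W (Up p x y) (Ep p x y) n ^ 2 * d1)
    (by linear_combination n2 - W (Up p x' y') (Ep p x' y') m ^ 2 * d2) hnd
  refine ⟨key.1, ?_⟩
  have := key.2
  linear_combination D * this + W (Up p x y) (Ep p x y) n ^ 2 * d1 -
    W (Up p x' y') (Ep p x' y') m ^ 2 * d2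


lemma sq_mod8 (a : ℤ) (h : a % 2 = 1) : a ^ 2 ≡ 1 [ZMOD 8] := by
  have h8 : a % 8 = 1 ∨ a % 8 = 3 ∨ a % 8 = 5 ∨ a % 8 = 7 := by omega
  rcases h8 with h8 | h8 | h8 | h8 <;> simp [Int.ModEq, pow_two, Int.mul_emod, h8]

lemma odd_pow_mod8_even (a : ℤ) (h : a % 2 = 1) (n : ℕ) (hn : n % 2 = 0) :
    a ^ n ≡ 1 [ZMOD 8] := by
  obtain ⟨k, rfl⟩ : ∃ k, n = 2 * k := ⟨n / 2, by omega⟩
  rw [pow_mul]
  have := (sq_mod8 a h).pow k
  rwa [one_pow] at this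

lemma odd_pow_mod8_odd (a : ℤ) (h : a % 2 = 1) (n : ℕ) (hn : n % 2 = 1) :
    a ^ n ≡ a [ZMOD 8] := by
  obtain ⟨k, rfl⟩ : ∃ k, n = 2 * k + 1 := ⟨n / 2, by omega⟩
  rw [pow_succ]
  have := (odd_pow_mod8_even a h (2 * k) (by omega)).mul_right a
  rwa [one_mul] at this

lemma prime_odd {p : ℕ} (hp : p.Prime) (p5 : 5 ≤ p) : (p : ℤ) % 2 = 1 := by
  have := hp.eq_two_or_odd
  omega

lemma pow_prime_odd {p : ℕ} (hp : p.Prime) (p5 : 5 ≤ p) (y : ℕ) : ((p : ℤ) ^ y) % 2 = 1 := by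
  have h1 : Odd (p : ℤ) := Int.odd_iff.2 (prime_odd hp p5)
  exact Int.odd_iff.1 h1.pow

lemma two_pow_even {x : ℕ} (hx : 0 < x) : ((2 : ℤ) ^ x) % 2 = 0 := by
  obtain ⟨k, rfl⟩ : ∃ k, x = k + 1 := ⟨x - 1, by omega⟩
  rw [pow_succ]; omega

lemma Up_odd {p x y : ℕ} (hp : p.Prime) (p5 : 5 ≤ p) (hx : 0 < x) : Up p x y % 2 = 1 := by
  have h1 := pow_prime_odd hp p5 y
  have h2 := two_pow_even hx
  unfold Up
  omega

lemma eight_dvd_Ep {p x y : ℕ} (hx : 0 < x) : (8 : ℤ) ∣ Ep p x y := by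
  obtain ⟨k, rfl⟩ : ∃ k, x = k + 1 := ⟨x - 1, by omega⟩
  exact ⟨2 ^ k * (p : ℤ) ^ y, by unfold Ep; ring⟩

lemma p_dvd_Ep {p x y : ℕ} (hy : 0 < y) : (p : ℤ) ∣ Ep p x y := by
  unfold Ep
  exact (dvd_pow_self _ hy.ne').mul_left _

lemma not_p_dvd_Up {p x y : ℕ} (hp : p.Prime) (p5 : 5 ≤ p) (hy : 0 < y) :
    ¬ (p : ℤ) ∣ Up p x y := by
  have hpZ : Prime (p : ℤ) := Nat.prime_iff_prime_int.1 hp
  intro h
  have h1 : (p : ℤ) ∣ 2 ^ x := by
    have h2 := dvd_add h (dvd_pow_self (p : ℤ) hy.ne')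
    have e : Up p x y + (p : ℤ) ^ y = 2 ^ x := by unfold Up; ring
    rwa [e] at h2
  have h3 := hpZ.dvd_of_dvd_pow h1
  have h4 : p ∣ 2 := by exact_mod_cast h3
  have := Nat.le_of_dvd (by norm_num) h4
  omega

lemma lemC_parity {p q x y z x' y' z' : ℕ} (hp : p.Prime) (p5 : 5 ≤ p) (hq : q.Prime)
    (q5 : 5 ≤ q) (hx : 0 < x) (hx' : x' % 2 = 1) (hy : 0 < y)
    (hy' : y' % 2 = 1) (h : 2 ^ x + p ^ y = q ^ z) (h' : 2 ^ x' + p ^ y' = q ^ z')
    (n m : ℕ) (hn : n % 2 = 0) (hm : m % 2 = 1)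
    (hz' : z' % 2 = 0) (hnm : z * n = z' * m)
    (hA : A (Up p x y) (Ep p x y) n ^ 2 = A (Up p x' y') (Ep p x' y') m ^ 2) : False := by
  have hpZ : Prime (p : ℤ) := Nat.prime_iff_prime_int.1 hp
  have hA1 : A (Up p x y) (Ep p x y) n ≡ 1 [ZMOD 8] :=
    ((AW_modE _ _ n).1.of_dvd (eight_dvd_Ep hx)).trans
      (odd_pow_mod8_even _ (Up_odd hp p5 hx) n hn)
  have hA2 : A (Up p x' y') (Ep p x' y') m ≡ Up p x' y' [ZMOD 8] :=
    ((AW_modE _ _ m).1.of_dvd (eight_dvd_Ep (by omega))).trans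
      (odd_pow_mod8_odd _ (Up_odd hp p5 (by omega)) m hm)
  have h'Z : (2 : ℤ) ^ x' + (p : ℤ) ^ y' = (q : ℤ) ^ z' := by exact_mod_cast h'
  have hq8 : (q : ℤ) ^ z' ≡ 1 [ZMOD 8] :=
    odd_pow_mod8_even _ (prime_odd hq q5) z' hz'
  have hU' : Up p x' y' = 2 * 2 ^ x' - (q : ℤ) ^ z' := by
    unfold Up; rw [← h'Z]; ring
  have h28 : (2 * 2 ^ x' : ℤ) % 8 = 4 ∨ (2 * 2 ^ x' : ℤ) % 8 = 0 := by
    rcases Nat.lt_or_ge x' 2 with h1 | h1
    · have : x' = 1 := by omega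
      subst this; left; norm_num
    · right
      obtain ⟨k, rfl⟩ : ∃ k, x' = k + 2 := ⟨x' - 2, by omega⟩
      have : (2 : ℤ) * 2 ^ (k + 2) = 8 * 2 ^ k := by ring
      rw [this]; omega
  have hne : A (Up p x y) (Ep p x y) n ≠ A (Up p x' y') (Ep p x' y') m := by
    intro heq
    rw [heq] at hA1
    unfold Int.ModEq at hA1 hA2 hq8
    have hA2' : A (Up p x' y') (Ep p x' y') m % 8 = (2 * 2 ^ x' - (q : ℤ) ^ z') % 8 := by
      rw [← hU']; exact hA2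
    have arith : ∀ a t Q : ℤ, a % 8 = 1 % 8 → a % 8 = (t - Q) % 8 → Q % 8 = 1 % 8 →
        (t % 8 = 4 ∨ t % 8 = 0) → False := by
      intro a t Q h1 h2 h3 h4
      omega
    exact arith _ _ _ hA1 hA2' hq8 h28
  have hneg : A (Up p x y) (Ep p x y) n = - A (Up p x' y') (Ep p x' y') m :=
    (sq_eq_sq_iff_eq_or_eq_neg.1 hA).resolve_left hne
  obtain ⟨k, hk⟩ : ∃ k, n = k + k := ⟨n / 2, by omega⟩
  have hdouble := (AW_add (Up p x y) (Ep p x y) k k).1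
  have hnorm := AW_norm (Up p x y) (Ep p x y) k
  rw [UE_norm h, ← pow_mul] at hnorm
  have e1 : 2 * z * k = z' * m := by rw [← hnm, hk]; ring
  rw [e1] at hnorm
  have hmodp : A (Up p x' y') (Ep p x' y') m ≡ (q : ℤ) ^ (z' * m) [ZMOD p] := by
    have h1 := (AW_modE (Up p x' y') (Ep p x' y') m).1.of_dvd
      (p_dvd_Ep (p := p) (x := x') (y := y') (by omega))
    have h2 : Up p x' y' ≡ (q : ℤ) ^ z' [ZMOD p] := by
      rw [← h'Z]
      apply Int.ModEq.symm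
      rw [Int.modEq_iff_dvd]
      have : Up p x' y' - (2 ^ x' + (p : ℤ) ^ y') = -2 * (p : ℤ) ^ y' := by unfold Up; ring
      rw [this]
      exact (dvd_pow_self _ (by omega)).mul_left _
    rw [pow_mul]
    exact h1.trans (h2.pow m)
  have hfin : (p : ℤ) ∣ 2 * A (Up p x y) (Ep p x y) k ^ 2 := by
    have h1 : 2 * A (Up p x y) (Ep p x y) k ^ 2 =
        A (Up p x y) (Ep p x y) n + (q : ℤ) ^ (z' * m) := by
      rw [hk, hdouble, ← hnorm]; ring
    rw [h1, hneg]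
    have := hmodp.dvd
    rw [neg_add_eq_sub]
    exact this
  have hA3 : ¬ (p : ℤ) ∣ A (Up p x y) (Ep p x y) k := by
    intro hd
    have h1 := (AW_modE (Up p x y) (Ep p x y) k).1.of_dvd (p_dvd_Ep (p := p) (x := x) hy)
    exact not_p_dvd_Up (x := x) hp p5 hy (hpZ.dvd_of_dvd_pow ((Int.ModEq.dvd_iff h1).1 hd))
  rcases hpZ.dvd_or_dvd hfin with h1 | h1
  · have h4 : p ∣ 2 := by exact_mod_cast h1
    have := Nat.le_of_dvd (by norm_num) h4
    omega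
  · exact hA3 (hpZ.dvd_of_dvd_pow h1)


lemma W_odd {p x y : ℕ} (hp : p.Prime) (p5 : 5 ≤ p) (hx : 0 < x) (n : ℕ) (hn : n % 2 = 1) :
    W (Up p x y) (Ep p x y) n % 2 = 1 := by
  have h1 := (AW_modE (Up p x y) (Ep p x y) n).2.of_dvd
    ((show (2 : ℤ) ∣ 8 by norm_num).trans (eight_dvd_Ep (p := p) (y := y) hx))
  have hU := Up_odd (y := y) hp p5 hx
  have hUn : (Up p x y ^ n) % 2 = 1 := Int.odd_iff.1 (Int.odd_iff.2 hU).pow
  unfold Int.ModEq at h1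
  rw [Int.mul_emod, hU, Int.mul_emod (n : ℤ), hUn] at h1
  omega

lemma two_adic (x x' : ℕ) (a b : ℤ) (ha : a % 2 = 1) (hb : b % 2 = 1)
    (h : (2 : ℤ) ^ x * a = 2 ^ x' * b) : x = x' := by
  rcases lt_trichotomy x x' with hlt | heq | hgt
  · exfalso
    obtain ⟨k, rfl⟩ : ∃ k, x' = x + (k + 1) := ⟨x' - x - 1, by omega⟩
    have h2 : (2 : ℤ) ^ x * a = 2 ^ x * (2 ^ (k + 1) * b) := by rw [h]; ring
    have h3 : a = 2 ^ (k + 1) * b := mul_left_cancel₀ (by positivity) h2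
    rw [pow_succ] at h3
    have h4 : a = 2 * (2 ^ k * b) := by rw [h3]; ring
    omega
  · exact heq
  · exfalso
    obtain ⟨k, rfl⟩ : ∃ k, x = x' + (k + 1) := ⟨x - x' - 1, by omega⟩
    have h2 : (2 : ℤ) ^ x' * b = 2 ^ x' * (2 ^ (k + 1) * a) := by rw [← h]; ring
    have h3 : b = 2 ^ (k + 1) * a := mul_left_cancel₀ (by positivity) h2
    rw [pow_succ] at h3
    have h4 : b = 2 * (2 ^ k * a) := by rw [h3]; ring
    omega

lemma pow_four_le (n : ℕ) : n ^ 4 ≤ 5 ^ n := by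
  rcases Nat.lt_or_ge n 4 with h | h
  · interval_cases n <;> norm_num
  · induction n, h using Nat.le_induction with
    | base => norm_num
    | succ n hn ih =>
      have h1 : (n + 1) ^ 4 ≤ 5 * n ^ 4 := by
        have : 4 * (n + 1) ≤ 5 * n := by omega
        have h2 : (4 * (n + 1)) ^ 4 ≤ (5 * n) ^ 4 := Nat.pow_le_pow_left this 4
        rw [mul_pow, mul_pow] at h2
        have h3 : 256 * (n + 1) ^ 4 ≤ 625 * n ^ 4 := by norm_num at h2 ⊢; exact h2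
        generalize (n + 1) ^ 4 = s at h3 ⊢
        generalize n ^ 4 = t at h3 ⊢
        omega
      calc (n + 1) ^ 4 ≤ 5 * n ^ 4 := h1
        _ ≤ 5 * 5 ^ n := Nat.mul_le_mul_left 5 ih
        _ = 5 ^ (n + 1) := by ring

lemma lemC_le {p q x y z x' y' z' : ℕ} (hp : p.Prime) (p5 : 5 ≤ p) (hq : q.Prime)
    (q5 : 5 ≤ q) (hpq : p ≠ q) (hx : 0 < x) (hx' : 0 < x') (hz : 0 < z) (hz' : 0 < z')
    (hy : y % 2 = 1) (hy' : y' % 2 = 1) (hxx : x % 2 = x' % 2)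
    (hpar : x % 2 = 0 → z % 2 = 1 ∧ z' % 2 = 1)
    (h : 2 ^ x + p ^ y = q ^ z) (h' : 2 ^ x' + p ^ y' = q ^ z') (hzz : z ≤ z') :
    x = x' ∧ y = y' ∧ z = z' := by
  obtain ⟨m, n, hcop, hm, hn⟩ := Nat.exists_coprime z z'
  set g := Nat.gcd z z' with hg
  have hgpos : 0 < g := Nat.gcd_pos_of_pos_left _ hz
  have hmpos : 0 < m := by
    rcases Nat.eq_zero_or_pos m with h0 | h0
    · rw [h0, zero_mul] at hm; omega
    · exact h0
  have hnpos : 0 < n := by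
    rcases Nat.eq_zero_or_pos n with h0 | h0
    · rw [h0, zero_mul] at hn; omega
    · exact h0
  have hnm : z * n = z' * m := by
    have : m * g * n = n * g * m := by ring
    rw [← hm, ← hn] at this
    exact this
  have core := lemC_core hp hq q5 hpq hz hz' hy hy' hxx h h' n m hnpos hmpos hnm
  have hodd : n % 2 = 1 ∧ m % 2 = 1 := by
    rcases Nat.mod_two_eq_zero_or_one x with hx0 | hx1
    · obtain ⟨h1, h2⟩ := hpar hx0
      rw [hm, Nat.mul_mod] at h1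
      rw [hn, Nat.mul_mod] at h2
      rcases Nat.mod_two_eq_zero_or_one m with h3 | h3 <;>
        rcases Nat.mod_two_eq_zero_or_one n with h4 | h4 <;> simp [h3, h4] at h1 h2 ⊢
    · rcases Nat.mod_two_eq_zero_or_one n with h4 | h4
      · exfalso
        have hmodd : m % 2 = 1 := by
          rcases Nat.mod_two_eq_zero_or_one m with h3 | h3
          · have h5 : 2 ∣ Nat.gcd m n :=
              Nat.dvd_gcd (Nat.dvd_of_mod_eq_zero h3) (Nat.dvd_of_mod_eq_zero h4)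
            rw [hcop] at h5
            norm_num at h5
          · exact h3
        have hz'even : z' % 2 = 0 := by rw [hn, Nat.mul_mod, h4]; simp
        exact lemC_parity hp p5 hq q5 hx (by omega) (by omega) hy' h h' n m h4 hmodd
          hz'even hnm core.1
      · refine ⟨h4, ?_⟩
        rcases Nat.mod_two_eq_zero_or_one m with h3 | h3
        · exfalso
          have hzeven : z % 2 = 0 := by rw [hm, Nat.mul_mod, h3]; simp
          exact lemC_parity hp p5 hq q5 hx' hx1 (by omega) hy h' h m n h3 h4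
            hzeven hnm.symm core.1.symm
        · exact h3
  obtain ⟨hnodd, hmodd⟩ := hodd
  have hW1 := W_odd (y := y) hp p5 hx n hnodd
  have hW2 := W_odd (y := y') hp p5 hx' m hmodd
  have hc2 : (2 : ℤ) ^ x * ((p : ℤ) ^ y * W (Up p x y) (Ep p x y) n ^ 2) =
      2 ^ x' * ((p : ℤ) ^ y' * W (Up p x' y') (Ep p x' y') m ^ 2) := by
    have e := core.2
    have e1 : Ep p x y = 4 * (2 ^ x * (p : ℤ) ^ y) := by unfold Ep; ring
    have e2 : Ep p x' y' = 4 * (2 ^ x' * (p : ℤ) ^ y') := by unfold Ep; ring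
    generalize W (Up p x y) (Ep p x y) n = w at e ⊢
    generalize W (Up p x' y') (Ep p x' y') m = w' at e ⊢
    rw [e1, e2] at e
    linarith
  have hxeq : x = x' := by
    apply two_adic x x' _ _ _ _ hc2
    · exact Int.odd_iff.1 ((Int.odd_iff.2 (pow_prime_odd hp p5 y)).mul (Int.odd_iff.2 hW1).pow)
    · exact Int.odd_iff.1 ((Int.odd_iff.2 (pow_prime_odd hp p5 y')).mul (Int.odd_iff.2 hW2).pow)
  refine ⟨hxeq, ?_⟩
  have hc3 : (p : ℤ) ^ y * W (Up p x y) (Ep p x y) n ^ 2 =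
      (p : ℤ) ^ y' * W (Up p x' y') (Ep p x' y') m ^ 2 := by
    rw [← hxeq] at hc2 ⊢
    exact mul_left_cancel₀ (by positivity) hc2
  have hp0 : (0 : ℤ) < p := by exact_mod_cast hp.pos
  rcases Nat.eq_or_lt_of_le hzz with heq | hlt
  · refine ⟨?_, heq⟩
    rw [← hxeq, ← heq, ← h] at h'
    have h3 : p ^ y' = p ^ y := by omega
    exact (Nat.pow_right_injective hp.two_le h3).symm
  · exfalso
    have hqlt : q ^ z < q ^ z' := Nat.pow_lt_pow_right (by omega) hlt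
    have hplt : p ^ y < p ^ y' := by
      rw [← h, ← h', hxeq] at hqlt
      omega
    have hylt : y < y' := (Nat.pow_lt_pow_iff_right hp.one_lt).1 hplt
    obtain ⟨k, hk⟩ : ∃ k, y' = y + 2 * k := ⟨(y' - y) / 2, by omega⟩
    have hkpos : 0 < k := by omega
    have hsq : W (Up p x y) (Ep p x y) n ^ 2 =
        ((p : ℤ) ^ k * W (Up p x' y') (Ep p x' y') m) ^ 2 := by
      have h4 : (p : ℤ) ^ y * W (Up p x y) (Ep p x y) n ^ 2 =
          (p : ℤ) ^ y * ((p : ℤ) ^ k * W (Up p x' y') (Ep p x' y') m) ^ 2 := by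
        rw [hc3]
        have : (p : ℤ) ^ y' = (p : ℤ) ^ y * ((p : ℤ) ^ k) ^ 2 := by
          rw [← pow_mul, mul_comm k 2, ← pow_add, hk]
        rw [this]; ring
      exact mul_left_cancel₀ (by positivity) h4
    have hdvd : (p : ℤ) ^ k ∣ W (Up p x y) (Ep p x y) n := by
      rcases sq_eq_sq_iff_eq_or_eq_neg.1 hsq with h4 | h4
      · exact ⟨_, h4⟩
      · exact ⟨- W (Up p x' y') (Ep p x' y') m, by rw [h4]; ring⟩
    have hkn : p ^ k ∣ n := pow_dvd_W p hp p5 k n _ _ (p_dvd_Ep (by omega))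
      (not_p_dvd_Up hp p5 (by omega)) hdvd
    have hkle : p ^ k ≤ n := Nat.le_of_dvd hnpos hkn
    -- q^z divides p^(2k) - 1
    have hcq : Nat.Coprime (q ^ z) (p ^ y) :=
      Nat.Coprime.pow _ _ ((Nat.coprime_primes hq hp).2 (Ne.symm hpq))
    have e3 : p ^ y * (p ^ (2 * k) - 1) = q ^ z * (q ^ (z' - z) - 1) := by
      have e4 : q ^ z * q ^ (z' - z) = q ^ z' := by rw [← pow_add]; congr 1; omega
      have e5 : p ^ y * p ^ (2 * k) = p ^ y' := by rw [← pow_add, hk]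
      rw [Nat.mul_sub, Nat.mul_sub, mul_one, mul_one, e4, e5]
      rw [← h, ← h', hxeq]
      omega
    have hdv : q ^ z ∣ p ^ (2 * k) - 1 := by
      apply hcq.dvd_of_dvd_mul_left
      rw [e3]
      exact Dvd.intro _ rfl
    have hp2k : 1 < p ^ (2 * k) := Nat.one_lt_pow (by omega) hp.one_lt
    have hle1 : q ^ z ≤ p ^ (2 * k) - 1 := Nat.le_of_dvd (by omega) hdv
    have hle2 : p ^ (2 * k) ≤ n ^ 2 := by
      rw [pow_mul', ]
      exact Nat.pow_le_pow_left hkle 2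
    have hle3 : q ^ z' ≤ p ^ (2 * k) * q ^ z := by
      rw [← h', ← h, hxeq]
      have e5 : p ^ y' = p ^ (2 * k) * p ^ y := by rw [← pow_add, hk]; congr 1; ring
      rw [e5, mul_add]
      apply Nat.add_le_add_right
      exact Nat.le_mul_of_pos_left _ (by omega)
    have hle4 : q ^ z' < n ^ 2 * n ^ 2 := by
      calc q ^ z' ≤ p ^ (2 * k) * q ^ z := hle3
        _ ≤ n ^ 2 * q ^ z := Nat.mul_le_mul_right _ hle2
        _ < n ^ 2 * n ^ 2 := by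
          apply Nat.mul_lt_mul_of_pos_left
          · omega
          · positivity
    have hnz : n ≤ z' := by rw [hn]; exact Nat.le_mul_of_pos_right _ hgpos
    have hle5 : 5 ^ n ≤ q ^ z' :=
      (Nat.pow_le_pow_left q5 n).trans (Nat.pow_le_pow_right (by omega) hnz)
    have := pow_four_le n
    have e6 : n ^ 2 * n ^ 2 = n ^ 4 := by ring
    omega

lemma lemC {p q x y z x' y' z' : ℕ} (hp : p.Prime) (p5 : 5 ≤ p) (hq : q.Prime)
    (q5 : 5 ≤ q) (hpq : p ≠ q) (hx : 0 < x) (hx' : 0 < x') (hz : 0 < z) (hz' : 0 < z')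
    (hy : y % 2 = 1) (hy' : y' % 2 = 1) (hxx : x % 2 = x' % 2)
    (hpar : x % 2 = 0 → z % 2 = 1 ∧ z' % 2 = 1)
    (h : 2 ^ x + p ^ y = q ^ z) (h' : 2 ^ x' + p ^ y' = q ^ z') :
    x = x' ∧ y = y' ∧ z = z' := by
  rcases le_total z z' with hzz | hzz
  · exact lemC_le hp p5 hq q5 hpq hx hx' hz hz' hy hy' hxx hpar h h' hzz
  · have := lemC_le hp p5 hq q5 hpq hx' hx hz' hz hy' hy hxx.symm
      (fun h0 => (hpar (hxx.trans h0)).symm) h' h hzz
    exact ⟨this.1.symm, this.2.1.symm, this.2.2.symm⟩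


/-! ### Solutions with both exponents even -/

lemma AW_parity_even (v u : ℤ) (hv : v % 2 = 0) (hu : u % 2 = 1) (n : ℕ) :
    A v (u ^ 2) n % 2 = ((n + 1 : ℕ) : ℤ) % 2 ∧ W v (u ^ 2) n % 2 = (n : ℤ) % 2 := by
  have hu2 : u ^ 2 % 2 = 1 := by rw [sq, Int.mul_emod, hu]; rfl
  induction n with
  | zero => simp [A_zero, W_zero]
  | succ n ih =>
    obtain ⟨h1, h2⟩ := ih
    rw [A_succ, W_succ]
    have e1 : (v * A v (u ^ 2) n) % 2 = 0 := by rw [Int.mul_emod, hv]; simp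
    have e2 : (v * W v (u ^ 2) n) % 2 = 0 := by rw [Int.mul_emod, hv]; simp
    have e3 : (u ^ 2 * W v (u ^ 2) n) % 2 = W v (u ^ 2) n % 2 := by
      rw [Int.mul_emod, hu2, one_mul, Int.emod_emod_of_dvd _ dvd_rfl]
    push_cast at h1 h2 ⊢
    constructor <;> omega

lemma A_one_odd (E : ℤ) (hE : 4 ∣ E) (n : ℕ) : A 1 E n % 2 = 1 := by
  have h := (AW_modE 1 E n).1.of_dvd ((show (2 : ℤ) ∣ 4 by norm_num).trans hE)
  rw [one_pow] at h
  exact h

lemma W_one_modfour (E : ℤ) (hE : 4 ∣ E) (n : ℕ) : W 1 E n ≡ n [ZMOD 4] := by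
  have h := (AW_modE 1 E n).2.of_dvd hE
  rw [one_pow, mul_one, one_mul] at h
  exact h

lemma W_two_pow (E : ℤ) (hE : 4 ∣ E) (e : ℕ) (he : e % 2 = 1) (s : ℕ) :
    ∃ w : ℤ, w % 2 = 1 ∧ W 1 E (2 ^ s * e) = 2 ^ s * w := by
  induction s with
  | zero =>
    refine ⟨W 1 E e, ?_, by simp⟩
    have := W_one_modfour E hE e
    unfold Int.ModEq at this
    omega
  | succ s ih =>
    obtain ⟨w, hw1, hw2⟩ := ih
    have e1 : 2 ^ (s + 1) * e = 2 ^ s * e + 2 ^ s * e := by ring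
    refine ⟨A 1 E (2 ^ s * e) * w, ?_, ?_⟩
    · rw [Int.mul_emod, A_one_odd E hE, hw1]; rfl
    · rw [e1, (AW_add 1 E _ _).2, hw2]; ring

lemma one_add_pow_two (E : ℤ) (hE : 4 ∣ E) (e : ℕ) (s : ℕ) :
    (2 : ℤ) ^ (s + 2) ∣ (1 + E) ^ (2 ^ s * e) - 1 := by
  have h1 : (2 : ℤ) ^ (s + 2) ∣ (1 + E) ^ (2 ^ s) - 1 := by
    induction s with
    | zero => simpa using hE
    | succ s ih =>
      obtain ⟨c, hc⟩ := ih
      have e1 : (1 + E) ^ 2 ^ (s + 1) = ((1 + E) ^ 2 ^ s) ^ 2 := by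
        rw [← pow_mul, pow_succ]
      have e2 : (1 + E) ^ 2 ^ s = 1 + 2 ^ (s + 2) * c := by linarith
      rw [e1, e2]
      exact ⟨c + 2 ^ (s + 1) * c ^ 2, by ring⟩
  rw [pow_mul]
  have h2 := sub_dvd_pow_sub_pow ((1 + E) ^ 2 ^ s) 1 e
  rw [one_pow] at h2
  exact h1.trans h2

lemma no_small (E : ℤ) (hE : 4 ∣ E) (e : ℕ) (he0 : 0 < e) (he : 4 ∣ e) (c : ℤ)
    (hc : c % 2 = 1) (h : A 1 E e - 1 = - c * W 1 E e) : False := by
  obtain ⟨s, e', he', hee⟩ := Nat.exists_eq_two_pow_mul_odd he0.ne'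
  have he'2 : e' % 2 = 1 := Nat.odd_iff.1 he'
  have hs : 2 ≤ s := by
    by_contra hlt
    have hs' : s = 0 ∨ s = 1 := by omega
    rcases hs' with h0 | h0 <;> subst h0 <;> omega
  obtain ⟨w, hw1, hw2⟩ := W_two_pow E hE e' he'2 s
  rw [← hee] at hw2
  have h2 := one_add_pow_two E hE e' s
  rw [← hee] at h2
  have hn := AW_norm 1 E e
  rw [one_pow] at hn
  obtain ⟨t, rfl⟩ : ∃ t, s = t + 2 := ⟨s - 2, by omega⟩
  obtain ⟨a, ha⟩ := hE
  obtain ⟨b, hb⟩ := h2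
  have hA : A 1 E e = 1 - c * (2 ^ (t + 2) * w) := by rw [← hw2]; linarith
  have e1 : (1 - c * (2 ^ (t + 2) * w)) ^ 2 + E * (2 ^ (t + 2) * w) ^ 2 =
      1 + 2 ^ (t + 2 + 2) * b := by
    rw [← hA, ← hw2, hn]; linarith
  have e2 : (2 : ℤ) ^ (t + 3) * (c * w * (-1 + c * 2 ^ (t + 1) * w)) =
      2 ^ (t + 3) * (2 * (b - a * 2 ^ (t + 2) * w ^ 2)) := by
    rw [ha] at e1
    have : (2 : ℤ) ^ (t + 2 + 2) = 2 ^ (t + 3) * 2 := by ring
    rw [this] at e1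
    have h3 : (1 - c * (2 ^ (t + 2) * w)) ^ 2 =
      1 + 2 ^ (t + 3) * (c * w * (-1 + c * 2 ^ (t + 1) * w)) := by ring
    rw [h3] at e1
    have h4 : 4 * a * (2 ^ (t + 2) * w) ^ 2 = 2 ^ (t + 3) * (2 * (a * 2 ^ (t + 2) * w ^ 2)) := by
      ring
    rw [h4] at e1
    linarith
  have e3 : c * w * (-1 + c * 2 ^ (t + 1) * w) = 2 * (b - a * 2 ^ (t + 2) * w ^ 2) :=
    mul_left_cancel₀ (by positivity) e2
  have o1 : Odd (c * w * (-1 + c * 2 ^ (t + 1) * w)) := by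
    apply ((Int.odd_iff.2 hc).mul (Int.odd_iff.2 hw1)).mul
    apply Odd.add_even (by decide)
    rw [pow_succ]
    exact ⟨c * 2 ^ t * w, by ring⟩
  rw [e3] at o1
  exact absurd (even_two_mul _) (Int.not_even_iff_odd.2 o1)


lemma fermat_case (q i z : ℕ) (hi : 0 < i) (hz3 : 3 ≤ z) (hz : z % 2 = 1) (hq : q.Prime)
    (hqi : q = 1 + 4 ^ i) (hW : W 1 (4 ^ i) z ^ 2 = 1) : q = 5 ∧ i = 1 ∧ z = 3 := by
  have hE : (4 : ℤ) ∣ 4 ^ i := dvd_pow_self _ hi.ne'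
  have hmod := W_one_modfour (4 ^ i) hE z
  have hW' : W 1 (4 ^ i) z = 1 ∨ W 1 (4 ^ i) z = -1 := 
    sq_eq_sq_iff_eq_or_eq_neg.1 (by rw [hW, one_pow])
  rcases Nat.lt_or_ge (z % 4) 2 with h1 | h1
  · exfalso
    have hz1 : z % 4 = 1 := by omega
    have hW1 : W 1 (4 ^ i) z = 1 := by
      rcases hW' with h2 | h2
      · exact h2
      · rw [h2] at hmod
        unfold Int.ModEq at hmod
        omega
    obtain ⟨e, rfl⟩ : ∃ e, z = e + 1 := ⟨z - 1, by omega⟩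
    rw [W_succ, one_mul] at hW1
    exact no_small (4 ^ i) hE e (by omega) (by omega) 1 (by norm_num) (by linarith)
  · have hz3' : z % 4 = 3 := by omega
    have hW1 : W 1 (4 ^ i) z = -1 := by
      rcases hW' with h2 | h2
      · rw [h2] at hmod
        unfold Int.ModEq at hmod
        omega
      · exact h2
    -- i is odd
    have hqZ : (q : ℤ) = 1 + 4 ^ i := by rw [hqi]; push_cast; ring
    have h2 := W_modq 1 (4 ^ i) q (by rw [hqZ, one_pow]) (z - 1)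
    rw [Nat.sub_add_cancel (by omega), hW1, mul_one] at h2
    have h3 : (4 : ℤ) ^ ((z - 1) / 2) ≡ -1 [ZMOD q] := by
      have e1 : (4 : ℤ) ^ ((z - 1) / 2) = 2 ^ (z - 1) := by
        have : (4 : ℤ) = 2 ^ 2 := by norm_num
        rw [this, ← pow_mul]; congr 1; omega
      rw [e1]; exact h2.symm
    have h4 : (4 : ℤ) ^ i ≡ -1 [ZMOD q] := by
      rw [hqZ]
      apply Int.ModEq.symm
      rw [Int.modEq_iff_dvd]
      exact ⟨1, by ring⟩
    have hiodd : i % 2 = 1 := by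
      by_contra hne
      have hev : i % 2 = 0 := by omega
      have h5 := h3.pow i
      have h6 := h4.pow ((z - 1) / 2)
      rw [← pow_mul, mul_comm, pow_mul] at h5
      have h7 : (-1 : ℤ) ^ i = 1 := Even.neg_one_pow (Nat.even_iff.2 hev)
      have h8 : (-1 : ℤ) ^ ((z - 1) / 2) = -1 := Odd.neg_one_pow (Nat.odd_iff.2 (by omega))
      rw [h7] at h5
      rw [h8] at h6
      have h9 := h5.symm.trans h6
      have h10 : (q : ℤ) ∣ -1 - 1 := h9.dvd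
      have h11 : (q : ℤ) ∣ 2 := by
        have := (dvd_neg.2 h10)
        norm_num at this
        exact this
      have h12 : q ∣ 2 := by exact_mod_cast h11
      have h13 := Nat.le_of_dvd (by norm_num) h12
      have h14 : 4 ^ 1 ≤ 4 ^ i := Nat.pow_le_pow_right (by norm_num) hi
      omega
    have h5q : 5 ∣ q := by
      obtain ⟨t, rfl⟩ : ∃ t, i = 2 * t + 1 := ⟨i / 2, by omega⟩
      have h5 : 4 ^ (2 * t + 1) % 5 = 4 := by
        rw [pow_succ, pow_mul, Nat.mul_mod, Nat.pow_mod]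
        norm_num
      omega
    have hq5 : q = 5 := ((Nat.prime_dvd_prime_iff_eq (by norm_num) hq).1 h5q).symm
    have hi1 : i = 1 := by
      have h14 : 4 ^ i = 4 ^ 1 := by omega
      exact Nat.pow_right_injective (by norm_num : 2 ≤ 4) h14
    refine ⟨hq5, hi1, ?_⟩
    subst hi1
    rw [pow_one] at hW1 hE
    by_contra hne
    obtain ⟨e, rfl⟩ : ∃ e, z = 3 + e := ⟨z - 3, by omega⟩
    have hA3 : A 1 4 3 = -11 := by decide
    have hW3 : W 1 4 3 = -1 := by decide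
    rw [(AW_add 1 4 3 e).2, hA3, hW3] at hW1
    exact no_small 4 hE e (by omega) (by omega) 11 (by norm_num) (by linarith)

lemma size_contra (q z : ℕ) (q5 : 5 ≤ q) (hz3 : 3 ≤ z) (hbound : q ^ z ≤ z ^ 2 * q) : False := by
  obtain ⟨t, rfl⟩ : ∃ t, z = t + 3 := ⟨z - 3, by omega⟩
  have e2 : q ^ (t + 3) = q ^ (t + 2) * q := by ring
  rw [e2] at hbound
  have h4 : q ^ (t + 2) ≤ (t + 3) ^ 2 := Nat.le_of_mul_le_mul_right hbound (by omega)
  have h5 : 5 ^ (t + 2) ≤ q ^ (t + 2) := Nat.pow_le_pow_left q5 _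
  have h6 : ∀ t : ℕ, (t + 3) ^ 2 < 5 ^ (t + 2) := by
    intro t
    induction t with
    | zero => norm_num
    | succ t ih =>
      have : 5 ^ (t + 1 + 2) = 5 * 5 ^ (t + 2) := by ring
      rw [this]
      nlinarith
  have := h6 t
  omega

lemma lemB_aux {p q i j z u v : ℕ} (hp : p.Prime) (p5 : 5 ≤ p) (hq : q.Prime) (q5 : 5 ≤ q)
    (hi : 0 < i) (hz : z % 2 = 1) (hz3 : 3 ≤ z)
    (h : 4 ^ i + p ^ (2 * j) = q ^ z) (huv : u ^ 2 + v ^ 2 = q) (hu : u % 2 = 1)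
    (hv : v % 2 = 0) : q = 5 ∧ p = 11 ∧ z = 3 ∧ i = 1 ∧ j = 1 := by
  have hqZ : Prime (q : ℤ) := Nat.prime_iff_prime_int.1 hq
  have hpZ : Prime (p : ℤ) := Nat.prime_iff_prime_int.1 hp
  have huvZ : (u : ℤ) ^ 2 + (v : ℤ) ^ 2 = q := by exact_mod_cast huv
  have hZ : ((p : ℤ) ^ j) ^ 2 + ((2 : ℤ) ^ i) ^ 2 = (q : ℤ) ^ z := by
    have h1 : (4 : ℤ) ^ i + (p : ℤ) ^ (2 * j) = (q : ℤ) ^ z := by exact_mod_cast h
    rw [← h1]
    have e1 : (4 : ℤ) ^ i = (2 ^ i) ^ 2 := by rw [← pow_mul, mul_comm, pow_mul]; norm_num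
    rw [e1, ← pow_mul, mul_comm j 2]
    ring
  have hupos : 0 < u := by
    rcases Nat.eq_zero_or_pos u with h0 | h0
    · subst h0; norm_num at hu
    · exact h0
  have hvpos : 0 < v := by
    rcases Nat.eq_zero_or_pos v with h0 | h0
    · exfalso
      rw [h0] at huv
      have h1 : ¬ Nat.Prime (u ^ 2) := Nat.Prime.not_prime_pow le_rfl
      apply h1
      have : u ^ 2 = q := by simpa using huv
      rw [this]; exact hq
    · exact h0
  have hult : u < q := by nlinarith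
  have hvlt : v < q := by nlinarith
  have hnu : ¬ (q : ℤ) ∣ (u : ℤ) := by
    intro hd
    have h1 : q ∣ u := by exact_mod_cast hd
    exact absurd (Nat.le_of_dvd hupos h1) (by omega)
  have hnv : ¬ (q : ℤ) ∣ (v : ℤ) := by
    intro hd
    have h1 : q ∣ v := by exact_mod_cast hd
    exact absurd (Nat.le_of_dvd hvpos h1) (by omega)
  have hn2 : ¬ (q : ℤ) ∣ 2 := by
    intro hd
    have h1 : q ∣ 2 := by exact_mod_cast hd
    exact absurd (Nat.le_of_dvd (by norm_num) h1) (by omega)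
  have huZ : (u : ℤ) % 2 = 1 := by omega
  have hvZ : (v : ℤ) % 2 = 0 := by omega
  obtain ⟨k, hk⟩ : ∃ k, z = k + 1 := ⟨z - 1, by omega⟩
  have hpodd : Odd ((p : ℤ) ^ j) := (Int.odd_iff.2 (prime_odd hp p5)).pow
  have h2iev : Even ((2 : ℤ) ^ i) := (by decide : Even (2 : ℤ)).pow_of_ne_zero hi.ne'
  have hnB' : ¬ (q : ℤ) ∣ 2 ^ i := fun hd => hn2 (hqZ.dvd_of_dvd_pow hd)
  -- first sequence
  have n1 := AW_norm (u : ℤ) ((v : ℤ) ^ 2) z
  rw [huvZ] at n1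
  have hw1 : ¬ (q : ℤ) ∣ W (u : ℤ) ((v : ℤ) ^ 2) z := by
    intro hd
    have h1 := W_modq (u : ℤ) ((v : ℤ) ^ 2) q (by rw [huvZ]) k
    rw [hk] at hd
    have h2 := hqZ.dvd_of_dvd_pow ((Int.ModEq.dvd_iff h1).1 hd)
    rcases hqZ.dvd_or_dvd h2 with h3 | h3
    · exact hn2 h3
    · exact hnu h3
  have ha1 : ¬ (q : ℤ) ∣ A (u : ℤ) ((v : ℤ) ^ 2) z := by
    intro hd
    have h2 : (q : ℤ) ∣ (q : ℤ) ^ z := dvd_pow_self _ (by omega)
    rw [← n1] at h2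
    have h3 := (dvd_add_right (hd.trans (dvd_pow_self _ two_ne_zero))).1 h2
    rcases hqZ.dvd_or_dvd h3 with h4 | h4
    · exact hnv (hqZ.dvd_of_dvd_pow h4)
    · exact hw1 (hqZ.dvd_of_dvd_pow h4)
  have hv2even : (2 : ℤ) ∣ (v : ℤ) ^ 2 := (Int.dvd_of_emod_eq_zero hvZ).trans
    (dvd_pow_self _ two_ne_zero)
  have hAodd1 : Odd (A (u : ℤ) ((v : ℤ) ^ 2) z) := by
    have h1 := (AW_modE (u : ℤ) ((v : ℤ) ^ 2) z).1.of_dvd hv2even
    have h2 : ((u : ℤ) ^ z) % 2 = 1 := Int.odd_iff.1 (Int.odd_iff.2 huZ).pow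
    unfold Int.ModEq at h1
    rw [h2] at h1
    exact Int.odd_iff.2 h1
  have hWodd1 : W (u : ℤ) ((v : ℤ) ^ 2) z % 2 = 1 := by
    have h1 := (AW_modE (u : ℤ) ((v : ℤ) ^ 2) z).2.of_dvd hv2even
    have h2 : ((u : ℤ) ^ z) % 2 = 1 := Int.odd_iff.1 (Int.odd_iff.2 huZ).pow
    unfold Int.ModEq at h1
    rw [Int.mul_emod, huZ, Int.mul_emod (z : ℤ), h2] at h1
    omega
  have r1 := unique_rep_one q hq z (A (u : ℤ) ((v : ℤ) ^ 2) z)
    ((v : ℤ) * W (u : ℤ) ((v : ℤ) ^ 2) z) ((p : ℤ) ^ j) (2 ^ i)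
    (by rw [← n1]; ring) hZ
    (by
      intro hd
      rcases hqZ.dvd_or_dvd hd with hd | hd
      · rcases hqZ.dvd_or_dvd hd with hd | hd
        · exact hn2 hd
        · exact ha1 hd
      · exact hnB' hd)
    hAodd1 hpodd ((Int.even_iff.2 hvZ).mul_right _)
  obtain ⟨r1a, r1b⟩ := r1
  -- W = ±1
  have hWdvd : W (u : ℤ) ((v : ℤ) ^ 2) z ∣ 2 ^ (2 * i) := by
    have e1 : (2 : ℤ) ^ (2 * i) = (v : ℤ) ^ 2 * W (u : ℤ) ((v : ℤ) ^ 2) z *
        W (u : ℤ) ((v : ℤ) ^ 2) z := by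
      have : (2 : ℤ) ^ (2 * i) = (2 ^ i) ^ 2 := by rw [← pow_mul, mul_comm]
      rw [this, ← r1b]; ring
    rw [e1]
    exact Dvd.intro_left _ rfl
  have hWone : W (u : ℤ) ((v : ℤ) ^ 2) z ^ 2 = 1 := by
    have hcop : IsCoprime (W (u : ℤ) ((v : ℤ) ^ 2) z) (2 ^ (2 * i)) := by
      apply IsCoprime.pow_right
      exact ⟨1, -(W (u : ℤ) ((v : ℤ) ^ 2) z / 2), by omega⟩
    have hunit := hcop.isUnit_of_dvd' dvd_rfl hWdvd
    rcases Int.isUnit_iff.1 hunit with h1 | h1 <;> rw [h1] <;> norm_num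
  have hv4 : (v : ℤ) ^ 2 = 4 ^ i := by
    have h1 : ((v : ℤ) * W (u : ℤ) ((v : ℤ) ^ 2) z) ^ 2 =
        (v : ℤ) ^ 2 * W (u : ℤ) ((v : ℤ) ^ 2) z ^ 2 := by ring
    rw [h1, hWone, mul_one] at r1b
    rw [r1b, ← pow_mul, mul_comm, pow_mul]; norm_num
  -- second sequence
  have n2 := AW_norm (v : ℤ) ((u : ℤ) ^ 2) z
  rw [add_comm, add_comm ((v : ℤ) ^ 2), huvZ] at n2
  have par2 := AW_parity_even (v : ℤ) (u : ℤ) hvZ huZ z
  have hw2 : ¬ (q : ℤ) ∣ W (v : ℤ) ((u : ℤ) ^ 2) z := by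
    intro hd
    have h1 := W_modq (v : ℤ) ((u : ℤ) ^ 2) q (by rw [add_comm, huvZ]) k
    rw [hk] at hd
    have h2 := hqZ.dvd_of_dvd_pow ((Int.ModEq.dvd_iff h1).1 hd)
    rcases hqZ.dvd_or_dvd h2 with h3 | h3
    · exact hn2 h3
    · exact hnv h3
  have r2 := unique_rep_one q hq z ((u : ℤ) * W (v : ℤ) ((u : ℤ) ^ 2) z)
    (A (v : ℤ) ((u : ℤ) ^ 2) z) ((p : ℤ) ^ j) (2 ^ i)
    (by rw [← n2]; ring) hZ
    (by
      intro hd
      rcases hqZ.dvd_or_dvd hd with hd | hd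
      · rcases hqZ.dvd_or_dvd hd with hd | hd
        · exact hn2 hd
        · rcases hqZ.dvd_or_dvd hd with hd | hd
          · exact hnu hd
          · exact hw2 hd
      · exact hnB' hd)
    ((Int.odd_iff.2 huZ).mul (Int.odd_iff.2 (by rw [par2.2]; omega))) hpodd
    (Int.even_iff.2 (by rw [par2.1]; push_cast; omega))
  obtain ⟨r2a, r2b⟩ := r2
  have hudvd : u ∣ p ^ j := by
    have h1 : (u : ℤ) ∣ (p : ℤ) ^ j := by
      rcases sq_eq_sq_iff_eq_or_eq_neg.1 r2a with h2 | h2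
      · exact ⟨_, h2.symm⟩
      · exact ⟨- W (v : ℤ) ((u : ℤ) ^ 2) z, by linarith⟩
    exact_mod_cast h1
  obtain ⟨l, hl, hul⟩ := (Nat.dvd_prime_pow hp).1 hudvd
  rcases Nat.eq_zero_or_pos l with hl0 | hlpos
  · -- u = 1
    rw [hl0, pow_zero] at hul
    subst hul
    have hqi : q = 1 + 4 ^ i := by
      have : (q : ℤ) = 1 + 4 ^ i := by rw [← huvZ, hv4]; norm_num
      exact_mod_cast this
    have hW1 : W 1 (4 ^ i) z ^ 2 = 1 := by
      rw [hv4] at hWone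
      exact_mod_cast hWone
    obtain ⟨h1, h2, h3⟩ := fermat_case q i z hi hz3 hz hq hqi hW1
    subst h1 h2 h3
    have hpj : p ^ (2 * j) = 11 ^ 2 := by
      norm_num at h ⊢
      omega
    have hp11 : p = 11 := by
      have h4 : p ∣ 11 ^ 2 := by
        rw [← hpj]
        apply dvd_pow_self
        intro h0
        rw [h0] at hpj
        norm_num at hpj
      exact (Nat.prime_dvd_prime_iff_eq hp (by norm_num)).1 (hp.dvd_of_dvd_pow h4)
    subst hp11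
    have h5 := Nat.pow_right_injective (by norm_num : 2 ≤ 11) hpj
    exact ⟨rfl, rfl, rfl, rfl, by omega⟩
  · exfalso
    have hpu : p ∣ u := by rw [hul]; exact dvd_pow_self _ hlpos.ne'
    have hpv : ¬ (p : ℤ) ∣ (v : ℤ) := by
      intro hd
      have h1 : p ∣ v := by exact_mod_cast hd
      have h2 : p ∣ q := by
        rw [← huv]
        exact dvd_add (hpu.trans (dvd_pow_self _ two_ne_zero)) (h1.trans (dvd_pow_self _ two_ne_zero))
      have h3 := (Nat.prime_dvd_prime_iff_eq hp hq).1 h2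
      have h4 := Nat.le_of_dvd hupos hpu
      omega
    have hE : (p : ℤ) ∣ (u : ℤ) ^ 2 := by
      have : (p : ℤ) ∣ (u : ℤ) := by exact_mod_cast hpu
      exact this.trans (dvd_pow_self _ two_ne_zero)
    have hWsq : W (v : ℤ) ((u : ℤ) ^ 2) z ^ 2 = ((p : ℤ) ^ (j - l)) ^ 2 := by
      have h1 : ((u : ℤ)) ^ 2 * W (v : ℤ) ((u : ℤ) ^ 2) z ^ 2 =
          (u : ℤ) ^ 2 * ((p : ℤ) ^ (j - l)) ^ 2 := by
        have e1 : (p : ℤ) ^ j = (u : ℤ) * (p : ℤ) ^ (j - l) := by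
          rw [hul]; push_cast; rw [← pow_add]; congr 1; omega
        calc ((u : ℤ)) ^ 2 * W (v : ℤ) ((u : ℤ) ^ 2) z ^ 2
            = ((u : ℤ) * W (v : ℤ) ((u : ℤ) ^ 2) z) ^ 2 := by ring
          _ = ((p : ℤ) ^ j) ^ 2 := r2a
          _ = _ := by rw [e1]; ring
      exact mul_left_cancel₀ (by positivity) h1
    have hdv : (p : ℤ) ^ (j - l) ∣ W (v : ℤ) ((u : ℤ) ^ 2) z := by
      rcases sq_eq_sq_iff_eq_or_eq_neg.1 hWsq with h2 | h2
      · rw [h2]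
      · rw [h2]; exact (dvd_neg.2 dvd_rfl)
    have hle : p ^ (j - l) ≤ z :=
      Nat.le_of_dvd (by omega) (pow_dvd_W p hp p5 (j - l) z _ _ hE hpv hdv)
    have hv4N : v ^ 2 = 4 ^ i := by exact_mod_cast hv4
    have hbound : q ^ z ≤ z ^ 2 * q := by
      rw [← h, ← hv4N, ← huv]
      have e1 : p ^ (2 * j) = u ^ 2 * (p ^ (j - l)) ^ 2 := by
        rw [hul, ← pow_mul, ← pow_mul, ← pow_add]; congr 1; omega
      rw [e1]
      have h1 : (p ^ (j - l)) ^ 2 ≤ z ^ 2 := Nat.pow_le_pow_left hle 2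
      have h2 : u ^ 2 * (p ^ (j - l)) ^ 2 ≤ u ^ 2 * z ^ 2 := Nat.mul_le_mul_left _ h1
      have h3 : 1 ≤ z ^ 2 := Nat.one_le_pow _ _ (by omega)
      nlinarith
    exact size_contra q z q5 hz3 hbound

lemma pow_mod4 {p : ℕ} (hp : p.Prime) (p5 : 5 ≤ p) (j : ℕ) : p ^ (2 * j) % 4 = 1 := by
  have h2 : p % 4 = 1 ∨ p % 4 = 3 := by
    have := hp.eq_two_or_odd
    omega
  rw [pow_mul, Nat.pow_mod]
  have h3 : p ^ 2 % 4 = 1 := by
    rcases h2 with h | h <;> rw [Nat.pow_mod, h]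
  rw [h3]; simp

lemma lemB {p q i j z : ℕ} (hp : p.Prime) (p5 : 5 ≤ p) (hq : q.Prime) (q5 : 5 ≤ q)
    (hi : 0 < i) (hz : z % 2 = 1) (hz3 : 3 ≤ z)
    (h : 4 ^ i + p ^ (2 * j) = q ^ z) : q = 5 ∧ p = 11 ∧ z = 3 ∧ i = 1 ∧ j = 1 := by
  have : Fact q.Prime := ⟨hq⟩
  have h1 := pow_mod4 hp p5 j
  have h2 : 4 ^ i % 4 = 0 := by
    obtain ⟨k, rfl⟩ : ∃ k, i = k + 1 := ⟨i - 1, by omega⟩
    rw [pow_succ]; omega
  have h3 : q ^ z % 4 = 1 := by omega
  have hq3 : q % 4 ≠ 3 := by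
    intro hq3
    obtain ⟨k, rfl⟩ : ∃ k, z = 2 * k + 1 := ⟨z / 2, by omega⟩
    rw [pow_succ, Nat.mul_mod, pow_mod4 hq q5 k, hq3] at h3
    norm_num at h3
  obtain ⟨a, b, hab⟩ := Nat.Prime.sq_add_sq hq3
  have hqodd : q % 2 = 1 := by
    have := hq.eq_two_or_odd
    omega
  rcases Nat.mod_two_eq_zero_or_one a with ha | ha <;>
    rcases Nat.mod_two_eq_zero_or_one b with hb | hb
  · exfalso
    rw [← hab, Nat.add_mod, Nat.pow_mod, ha, Nat.pow_mod b, hb] at hqodd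
    norm_num at hqodd
  · exact lemB_aux hp p5 hq q5 hi hz hz3 h (by rw [← hab]; ring) hb ha
  · exact lemB_aux hp p5 hq q5 hi hz hz3 h hab ha hb
  · exfalso
    rw [← hab, Nat.add_mod, Nat.pow_mod, ha, Nat.pow_mod b, hb] at hqodd
    norm_num at hqodd


/-! ### The residue class `5 mod 8` -/

open scoped NumberTheorySymbols

lemma parity_of_mod5 {p q α γ z : ℕ} (hp : p.Prime) (p8 : p % 8 = 5) (hz : z % 2 = 1)
    {β y : ℕ} (hβ : 0 < β) (hy : 0 < y)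
    (h1 : q = 4 ^ α + p ^ (2 * β)) (h2 : 4 ^ γ + p ^ y = q ^ z) : α % 2 = γ % 2 := by
  have : Fact p.Prime := ⟨hp⟩
  have hp2 : p ≠ 2 := by rintro rfl; norm_num at p8
  have c0 : (p : ZMod p) = 0 := CharP.cast_eq_zero _ _
  have e1 : (q : ZMod p) = (2 ^ α) ^ 2 := by
    rw [h1]; push_cast; rw [c0, zero_pow (by omega), add_zero, ← pow_mul, mul_comm α, pow_mul]
    norm_num
  have e2 : (q : ZMod p) ^ z = (2 ^ γ) ^ 2 := by
    have : ((q ^ z : ℕ) : ZMod p) = ((4 ^ γ + p ^ y : ℕ) : ZMod p) := by rw [h2]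
    push_cast at this
    rw [this, c0, zero_pow (by omega), add_zero, ← pow_mul, mul_comm γ, pow_mul]
    norm_num
  have e3 : ((2 : ZMod p) ^ (α * z)) ^ 2 = (2 ^ γ) ^ 2 := by
    rw [← e2, e1, ← pow_mul, ← pow_mul, ← pow_mul]
    congr 1; ring
  have hL2 : legendreSym p 2 = -1 := by
    rw [legendreSym.at_two hp2, ZMod.χ₈_nat_eq_if_mod_eight]
    simp [p8]; omega
  have hLn : legendreSym p (-1) = 1 := by
    rw [legendreSym.at_neg_one hp2, ZMod.χ₄_nat_one_mod_four (by omega)]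
  have hpow : ∀ n : ℕ, legendreSym p ((2 : ℤ) ^ n) = (-1) ^ n := by
    intro n
    rw [jacobiSym.legendreSym.to_jacobiSym, jacobiSym.pow_left,
      ← jacobiSym.legendreSym.to_jacobiSym, hL2]
  have hkey : legendreSym p ((2 : ℤ) ^ (α * z)) = legendreSym p ((2 : ℤ) ^ γ) := by
    rcases sq_eq_sq_iff_eq_or_eq_neg.1 e3 with e4 | e4
    · have : (((2 : ℤ) ^ (α * z) : ℤ) : ZMod p) = (((2 : ℤ) ^ γ : ℤ) : ZMod p) := by
        push_cast; exact e4
      rw [legendreSym.mod, (ZMod.intCast_eq_intCast_iff' _ _ p).1 this, ← legendreSym.mod]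
    · have : (((2 : ℤ) ^ (α * z) : ℤ) : ZMod p) = ((((-1) * 2 ^ γ : ℤ)) : ZMod p) := by
        push_cast; rw [e4]; ring
      rw [legendreSym.mod, (ZMod.intCast_eq_intCast_iff' _ _ p).1 this, ← legendreSym.mod,
        legendreSym.mul, hLn, one_mul]
  rw [hpow, hpow] at hkey
  by_contra hne
  have hαz : (α * z) % 2 = α % 2 := by rw [Nat.mul_mod, hz]; simp
  rcases Nat.mod_two_eq_zero_or_one α with ha | ha <;>
    rcases Nat.mod_two_eq_zero_or_one γ with hg | hg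
  · omega
  · rw [Even.neg_one_pow (Nat.even_iff.2 (by omega)),
      Odd.neg_one_pow (Nat.odd_iff.2 hg)] at hkey
    norm_num at hkey
  · rw [Odd.neg_one_pow (Nat.odd_iff.2 (by omega)),
      Even.neg_one_pow (Nat.even_iff.2 hg)] at hkey
    norm_num at hkey
  · omega

lemma pow_mod8_two {p : ℕ} (hp : p % 2 = 1) (j : ℕ) : p ^ (2 * j) % 8 = 1 := by
  have h2 : p % 8 = 1 ∨ p % 8 = 3 ∨ p % 8 = 5 ∨ p % 8 = 7 := by omega
  rw [pow_mul, Nat.pow_mod]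
  have h3 : p ^ 2 % 8 = 1 := by
    rcases h2 with h | h | h | h <;> rw [Nat.pow_mod, h]
  rw [h3]; simp

lemma pow_mod8_odd {p : ℕ} (hp : p % 2 = 1) (y : ℕ) (hy : y % 2 = 1) : p ^ y % 8 = p % 8 := by
  obtain ⟨k, rfl⟩ : ∃ k, y = 2 * k + 1 := ⟨y / 2, by omega⟩
  rw [pow_succ, Nat.mul_mod, pow_mod8_two hp, one_mul, Nat.mod_mod]

lemma four_pow_mod8 (α : ℕ) (hα : 2 ≤ α) : 4 ^ α % 8 = 0 := by
  obtain ⟨k, rfl⟩ : ∃ k, α = k + 2 := ⟨α - 2, by omega⟩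
  rw [pow_add]; omega

/-- Sophie Germain: `p^(4b) + 4^(2t+1)` is composite. -/
lemma sophie {p q α β : ℕ} (p5 : 5 ≤ p) (hq : q.Prime) (hα : α % 2 = 1) (hβ0 : 0 < β)
    (h1 : q = 4 ^ α + p ^ (2 * β)) : β % 2 = 1 := by
  by_contra hne
  obtain ⟨b, rfl⟩ : ∃ b, β = 2 * b := ⟨β / 2, by omega⟩
  obtain ⟨t, rfl⟩ : ∃ t, α = 2 * t + 1 := ⟨α / 2, by omega⟩
  have hb : 0 < b := by omega
  set a : ℤ := (p : ℤ) ^ b with ha
  set c : ℤ := (2 : ℤ) ^ t with hc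
  have hqZ : (q : ℤ) = ((a - c) ^ 2 + c ^ 2) * ((a + c) ^ 2 + c ^ 2) := by
    rw [h1]
    push_cast
    have e1 : (4 : ℤ) ^ (2 * t + 1) = 4 * c ^ 4 := by
      rw [hc, ← pow_mul, pow_succ]
      have : (4 : ℤ) = 2 ^ 2 := by norm_num
      rw [this, ← pow_mul]; ring
    have e2 : (p : ℤ) ^ (2 * (2 * b)) = a ^ 4 := by rw [ha, ← pow_mul]; congr 1; ring
    rw [e1, e2]; ring
  have ha5 : 5 ≤ a := by
    have h5 : (5 : ℤ) ≤ p := by exact_mod_cast p5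
    calc (5 : ℤ) ≤ p := h5
      _ = (p : ℤ) ^ 1 := (pow_one _).symm
      _ ≤ (p : ℤ) ^ b := pow_le_pow_right₀ (by linarith) hb
  have hc1 : 1 ≤ c := one_le_pow₀ (by norm_num)
  have f1 : 1 < (a - c) ^ 2 + c ^ 2 := by
    rcases eq_or_lt_of_le hc1 with h | h
    · rw [← h]; nlinarith
    · nlinarith [sq_nonneg (a - c)]
  have f2 : 1 < (a + c) ^ 2 + c ^ 2 := by nlinarith
  have hqZp : Prime (q : ℤ) := Nat.prime_iff_prime_int.1 hq
  have hirr := hqZp.irreducible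
  rcases hirr.isUnit_or_isUnit hqZ with h | h
  · rcases Int.isUnit_iff.1 h with h | h <;> omega
  · rcases Int.isUnit_iff.1 h with h | h <;> omega

lemma jacobi_two (S : ℕ) (hS : S % 2 = 1) (α : ℕ) :
    J((2 * 4 ^ α : ℤ) | S) = if S % 8 = 1 ∨ S % 8 = 7 then 1 else -1 := by
  have hodd : Odd S := Nat.odd_iff.2 hS
  rw [jacobiSym.mul_left, jacobiSym.pow_left, jacobiSym.at_four hodd, one_pow, mul_one,
    jacobiSym.at_two hodd, ZMod.χ₈_nat_eq_if_mod_eight]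
  simp [hS]

lemma no_mod5 {p q α β γ y z : ℕ} (hp : p.Prime) (p8 : p % 8 = 5) (hq : q.Prime)
    (hα : 0 < α) (hβ : 0 < β) (hγ : 0 < γ) (hy : y % 2 = 1) (hz : z % 2 = 1)
    (h1 : q = 4 ^ α + p ^ (2 * β)) (h2 : 4 ^ γ + p ^ y = q ^ z) : False := by
  have : Fact q.Prime := ⟨hq⟩
  have hpodd : p % 2 = 1 := by omega
  have p5 : 5 ≤ p := by omega
  have hpar := parity_of_mod5 hp p8 hz hβ (by omega : 0 < y) h1 h2
  have hp2β := pow_mod8_two hpodd β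
  have hpy := pow_mod8_odd hpodd y hy
  have hqmod : q % 2 = 1 := by
    have h4 : 4 ^ α % 2 = 0 := by
      obtain ⟨k, rfl⟩ : ∃ k, α = k + 1 := ⟨α - 1, by omega⟩
      rw [pow_succ]; omega
    omega
  have hqz := pow_mod8_odd hqmod z hz
  -- the two cases
  have hcase : (α = 1 ∧ γ % 2 = 1 ∧ q % 8 = 5) ∨ (γ = 1 ∧ 3 ≤ α ∧ α % 2 = 1 ∧ q % 8 = 1) := by
    rcases Nat.lt_or_ge α 2 with ha | ha
    · left
      have : α = 1 := by omega
      subst this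
      refine ⟨rfl, by omega, ?_⟩
      rw [h1]; omega
    · right
      have h48 := four_pow_mod8 α ha
      have hγ1 : γ = 1 := by
        by_contra hne
        have h48' := four_pow_mod8 γ (by omega)
        have : q % 8 = 1 := by rw [h1]; omega
        omega
      subst hγ1
      refine ⟨rfl, by omega, by omega, ?_⟩
      rw [h1]; omega
  have hαodd : α % 2 = 1 := by
    rcases hcase with ⟨h, _, _⟩ | ⟨_, _, h, _⟩ <;> omega
  have hβodd := sophie p5 hq hαodd hβ h1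
  have q4 : q % 4 = 1 := by
    rcases hcase with ⟨_, _, h⟩ | ⟨_, _, _, h⟩ <;> omega
  -- S and T
  obtain ⟨k, hk⟩ : ∃ k, α = 2 * k + 1 := ⟨α / 2, by omega⟩
  set S : ℕ := p ^ β + 2 ^ α with hS
  set N : ℕ := (k + 1) * y + γ * β with hN
  have c0 : (q : ZMod q) = 0 := CharP.cast_eq_zero _ _
  have eS : (S : ZMod q) ^ 2 = 2 ^ (2 * (k + 1)) * (p : ZMod q) ^ β := by
    have e1 : ((4 ^ α + p ^ (2 * β) : ℕ) : ZMod q) = 0 := by rw [← h1]; exact c0
    push_cast at e1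
    have e2 : (4 : ZMod q) ^ α = (2 ^ α) ^ 2 := by
      rw [← pow_mul, mul_comm, pow_mul]; norm_num
    have e3 : (p : ZMod q) ^ (2 * β) = ((p : ZMod q) ^ β) ^ 2 := by rw [← pow_mul, mul_comm]
    rw [e2, e3] at e1
    have e4 : (2 : ZMod q) ^ (2 * (k + 1)) = 2 * 2 ^ α := by
      rw [hk, ← pow_succ']; congr 1
    rw [hS, e4]
    push_cast
    linear_combination e1
  have ep : (p : ZMod q) ^ y = - (2 ^ γ) ^ 2 := by
    have e1 : ((4 ^ γ + p ^ y : ℕ) : ZMod q) = 0 := by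
      rw [h2]; push_cast; rw [c0, zero_pow (by omega)]
    push_cast at e1
    have e2 : (4 : ZMod q) ^ γ = (2 ^ γ) ^ 2 := by
      rw [← pow_mul, mul_comm, pow_mul]; norm_num
    rw [e2] at e1
    linear_combination e1
  have ekey : ((S : ZMod q) ^ y) ^ 2 = -((2 : ZMod q) ^ N) ^ 2 := by
    have e1 : ((S : ZMod q) ^ y) ^ 2 = ((S : ZMod q) ^ 2) ^ y := by rw [← pow_mul, ← pow_mul, mul_comm]
    have e2 : ((p : ZMod q) ^ β) ^ y = ((p : ZMod q) ^ y) ^ β := by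
      rw [← pow_mul, ← pow_mul, mul_comm]
    have e3 : ((2 : ZMod q) ^ (2 * (k + 1))) ^ y = (2 ^ ((k + 1) * y)) ^ 2 := by
      rw [← pow_mul, ← pow_mul]; congr 1; ring
    have e4 : (((2 : ZMod q) ^ γ) ^ 2) ^ β = (2 ^ (γ * β)) ^ 2 := by
      rw [← pow_mul, ← pow_mul, ← pow_mul]; congr 1; ring
    rw [e1, eS, mul_pow, e2, ep, neg_pow, Odd.neg_one_pow (Nat.odd_iff.2 hβodd), hN, e3, e4,
      pow_add]
    ring
  -- raise to the power (q-1)/4
  obtain ⟨e, he⟩ : ∃ e, q = 4 * e + 1 := ⟨q / 4, by omega⟩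
  have hq2 : q / 2 = 2 * e := by omega
  have eraise : ((S : ZMod q) ^ (q / 2)) ^ y = (-1) ^ e * ((2 : ZMod q) ^ (q / 2)) ^ N := by
    have e1 : (((S : ZMod q) ^ y) ^ 2) ^ e = (-((2 : ZMod q) ^ N) ^ 2) ^ e := by rw [ekey]
    rw [neg_pow] at e1
    have e2 : ((S : ZMod q) ^ (q / 2)) ^ y = (((S : ZMod q) ^ y) ^ 2) ^ e := by
      rw [hq2, ← pow_mul, ← pow_mul, ← pow_mul]; congr 1; ring
    have e3 : ((2 : ZMod q) ^ (q / 2)) ^ N = (((2 : ZMod q) ^ N) ^ 2) ^ e := by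
      rw [hq2, ← pow_mul, ← pow_mul, ← pow_mul]; congr 1; ring
    rw [e2, e3, e1]
  have hSlt : S < q := by
    rw [hS, h1]
    have g1 : p ^ β < p ^ (2 * β) := Nat.pow_lt_pow_right (by omega) (by omega)
    have g2 : 2 ^ α ≤ 4 ^ α := Nat.pow_le_pow_left (by norm_num) α
    omega
  have hSpos : 0 < S := by rw [hS]; positivity
  have hSne : (((S : ℤ)) : ZMod q) ≠ 0 := by
    push_cast
    intro h0
    rw [ZMod.natCast_eq_zero_iff] at h0
    exact absurd (Nat.le_of_dvd hSpos h0) (by omega)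
  have hq3 : 2 < q := by omega
  have h2ne : ((2 : ℤ) : ZMod q) ≠ 0 := by
    intro h0
    have h0' : ((2 : ℕ) : ZMod q) = 0 := by exact_mod_cast h0
    rw [ZMod.natCast_eq_zero_iff] at h0'
    exact absurd (Nat.le_of_dvd (by norm_num) h0') (by omega)
  have hLS := legendreSym.eq_pow q (S : ℤ)
  have hL2 := legendreSym.eq_pow q (2 : ℤ)
  push_cast at hLS hL2
  rw [← hLS, ← hL2] at eraise
  -- value of the symbol of S
  have hSodd : S % 2 = 1 := by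
    have g1 : p ^ β % 8 = 5 := by rw [pow_mod8_odd hpodd β hβodd]; exact p8
    have g2 : 2 ^ α % 2 = 0 := by rw [hk, pow_succ]; omega
    omega
  have hJ : legendreSym q (S : ℤ) = J((2 * 4 ^ α : ℤ) | S) := by
    rw [jacobiSym.legendreSym.to_jacobiSym,
      ← jacobiSym.quadratic_reciprocity_one_mod_four q4 (Nat.odd_iff.2 hSodd)]
    apply jacobiSym.mod_left'
    have : (q : ℤ) ≡ 2 * 4 ^ α [ZMOD S] := by
      apply Int.ModEq.symm
      rw [Int.modEq_iff_dvd]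
      refine ⟨(p : ℤ) ^ β - 2 ^ α, ?_⟩
      rw [h1, hS]
      push_cast
      have e2 : (4 : ℤ) ^ α = (2 ^ α) ^ 2 := by
        rw [← pow_mul, mul_comm, pow_mul]; norm_num
      have e3 : (p : ℤ) ^ (2 * β) = ((p : ℤ) ^ β) ^ 2 := by rw [← pow_mul, mul_comm]
      rw [e2, e3]; ring
    exact this
  rw [jacobi_two S hSodd α] at hJ
  have hone : ∀ {a b : ℤ}, (a = 1 ∨ a = -1) → (b = 1 ∨ b = -1) →
      ((a : ZMod q) = (b : ZMod q)) → a = b := by
    have hne : ((1 : ℤ) : ZMod q) ≠ ((-1 : ℤ) : ZMod q) := by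
      intro h0
      apply h2ne
      push_cast at h0 ⊢
      linear_combination h0
    intro a b ha hb hab
    rcases ha with ha | ha <;> rcases hb with hb | hb <;> subst ha <;> subst hb
    · rfl
    · exact absurd hab hne
    · exact absurd hab.symm hne
    · rfl
  have hSval := legendreSym.eq_one_or_neg_one q hSne
  have hodd_pow : (legendreSym q (S : ℤ)) ^ y = legendreSym q (S : ℤ) := by
    rcases hSval with h | h <;> rw [h]
    · exact one_pow y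
    · exact Odd.neg_one_pow (Nat.odd_iff.2 hy)
  have g1 : p ^ β % 8 = 5 := by rw [pow_mod8_odd hpodd β hβodd]; exact p8
  rcases hcase with ⟨ha1, hg, hq8⟩ | ⟨hg1, ha3, ha, hq8⟩
  · -- α = 1
    have hL2v : legendreSym q 2 = -1 := by
      rw [legendreSym.at_two (by omega), ZMod.χ₈_nat_eq_if_mod_eight]
      simp [hq8]; omega
    have hNeven : N % 2 = 0 := by
      have hk0 : k = 0 := by omega
      rw [hN, hk0, zero_add, one_mul]
      have : (γ * β) % 2 = 1 := by rw [Nat.mul_mod, hg, hβodd]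
      omega
    have heodd : e % 2 = 1 := by omega
    rw [hL2v, Odd.neg_one_pow (Nat.odd_iff.2 heodd)] at eraise
    have e5 : (((legendreSym q (S : ℤ)) ^ y : ℤ) : ZMod q) = ((-1 : ℤ) : ZMod q) := by
      push_cast
      rw [eraise]
      push_cast
      rw [Even.neg_one_pow (Nat.even_iff.2 hNeven), mul_one]
    rw [hodd_pow] at e5
    have e6 := hone hSval (Or.inr rfl) e5
    rw [e6] at hJ
    have hS8 : S % 8 = 7 := by
      rw [hS, ha1]; omega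
    simp [hS8] at hJ
  · have hL2v : legendreSym q 2 = 1 := by
      rw [legendreSym.at_two (by omega), ZMod.χ₈_nat_eq_if_mod_eight]
      simp [hq8]; omega
    have heeven : e % 2 = 0 := by omega
    rw [hL2v, Even.neg_one_pow (Nat.even_iff.2 heeven)] at eraise
    have e5 : (((legendreSym q (S : ℤ)) ^ y : ℤ) : ZMod q) = ((1 : ℤ) : ZMod q) := by
      push_cast
      rw [eraise]
      push_cast
      rw [one_pow, mul_one]
    rw [hodd_pow] at e5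
    have e6 := hone hSval (Or.inl rfl) e5
    rw [e6] at hJ
    have hS8 : S % 8 = 5 := by
      have : 2 ^ α % 8 = 0 := by
        obtain ⟨t, rfl⟩ : ∃ t, α = t + 3 := ⟨α - 3, by omega⟩
        rw [pow_add]; omega
      rw [hS]; omega
    simp [hS8] at hJ


/-! ### Congruences modulo 3 and 8, and the classification -/

lemma pow_mod3_one {p : ℕ} (hp : p % 3 = 1) (y : ℕ) : p ^ y % 3 = 1 := by
  rw [Nat.pow_mod, hp, one_pow, Nat.one_mod]

lemma pow_mod3_two_even {p : ℕ} (hp : p % 3 = 2) (y : ℕ) (hy : y % 2 = 0) : p ^ y % 3 = 1 := by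
  obtain ⟨k, rfl⟩ : ∃ k, y = 2 * k := ⟨y / 2, by omega⟩
  rw [pow_mul, Nat.pow_mod]
  have h3 : p ^ 2 % 3 = 1 := by rw [Nat.pow_mod, hp]
  rw [h3]; simp

lemma pow_mod3_two_odd {p : ℕ} (hp : p % 3 = 2) (y : ℕ) (hy : y % 2 = 1) : p ^ y % 3 = 2 := by
  obtain ⟨k, rfl⟩ : ∃ k, y = 2 * k + 1 := ⟨y / 2, by omega⟩
  rw [pow_succ, Nat.mul_mod, pow_mod3_two_even hp (2 * k) (by omega), one_mul, hp]

lemma prime_mod3 {p : ℕ} (hp : p.Prime) (p5 : 5 ≤ p) : p % 3 = 1 ∨ p % 3 = 2 := by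
  have h : ¬ 3 ∣ p := by
    intro h
    have := (Nat.prime_dvd_prime_iff_eq (by norm_num) hp).1 h
    omega
  omega

lemma mod3_one {p q x y z : ℕ} (hp3 : p % 3 = 1) (hq : q.Prime) (q5 : 5 ≤ q)
    (h : 2 ^ x + p ^ y = q ^ z) : x % 2 = 0 ∧ q % 3 = 2 ∧ z % 2 = 1 := by
  have h1 := pow_mod3_one hp3 y
  have hx : x % 2 = 0 := by
    by_contra hne
    have h2 := pow_mod3_two_odd (p := 2) (by norm_num) x (by omega)
    have h3 : q ^ z % 3 = 0 := by omega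
    have h4 : 3 ∣ q := Nat.prime_three.dvd_of_dvd_pow (Nat.dvd_of_mod_eq_zero h3)
    have := (Nat.prime_dvd_prime_iff_eq (by norm_num) hq).1 h4
    omega
  have h2 := pow_mod3_two_even (p := 2) (by norm_num) x hx
  have h3 : q ^ z % 3 = 2 := by omega
  have hq3 : q % 3 = 2 := by
    rcases prime_mod3 hq q5 with h4 | h4
    · have := pow_mod3_one h4 z; omega
    · exact h4
  refine ⟨hx, hq3, ?_⟩
  by_contra hne
  have := pow_mod3_two_even hq3 z (by omega)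
  omega

lemma mod3_two {p q x y z : ℕ} (hp3 : p % 3 = 2) (hq : q.Prime) (q5 : 5 ≤ q)
    (h : 2 ^ x + p ^ y = q ^ z) : x % 2 = y % 2 ∧ (x % 2 = 0 → q % 3 = 2 ∧ z % 2 = 1) ∧
      (x % 2 = 1 → q % 3 = 2 → z % 2 = 0) := by
  have hq0 : ¬ q ^ z % 3 = 0 := by
    intro h3
    have h4 : 3 ∣ q := Nat.prime_three.dvd_of_dvd_pow (Nat.dvd_of_mod_eq_zero h3)
    have := (Nat.prime_dvd_prime_iff_eq (by norm_num) hq).1 h4
    omega
  have hqe : ∀ hq3 : q % 3 = 2, z % 2 = 1 → q ^ z % 3 = 2 := fun hq3 hz =>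
    pow_mod3_two_odd hq3 z hz
  have hqe' : ∀ hq3 : q % 3 = 2, z % 2 = 0 → q ^ z % 3 = 1 := fun hq3 hz =>
    pow_mod3_two_even hq3 z hz
  have hq1 : ∀ hq3 : q % 3 = 1, q ^ z % 3 = 1 := fun hq3 => pow_mod3_one hq3 z
  have hq3 := prime_mod3 hq q5
  rcases Nat.mod_two_eq_zero_or_one x with hx | hx <;>
    rcases Nat.mod_two_eq_zero_or_one y with hy | hy
  · have h1 := pow_mod3_two_even (p := 2) (by norm_num) x hx
    have h2 := pow_mod3_two_even hp3 y hy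
    refine ⟨by omega, fun _ => ?_, fun h0 => by omega⟩
    rcases hq3 with h3 | h3
    · have := hq1 h3; omega
    · refine ⟨h3, ?_⟩
      by_contra hne
      have := hqe' h3 (by omega)
      omega
  · exfalso
    have h1 := pow_mod3_two_even (p := 2) (by norm_num) x hx
    have h2 := pow_mod3_two_odd hp3 y hy
    omega
  · exfalso
    have h1 := pow_mod3_two_odd (p := 2) (by norm_num) x hx
    have h2 := pow_mod3_two_even hp3 y hy
    omega
  · have h1 := pow_mod3_two_odd (p := 2) (by norm_num) x hx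
    have h2 := pow_mod3_two_odd hp3 y hy
    refine ⟨by omega, fun h0 => by omega, fun _ h3 => ?_⟩
    by_contra hne
    have := hqe h3 (by omega)
    omega

lemma two_pow_half {x : ℕ} (hx : x % 2 = 0) : 2 ^ x = 4 ^ (x / 2) := by
  have : (4 : ℕ) = 2 ^ 2 := by norm_num
  rw [this, ← pow_mul]; congr 1; omega

/-- a solution with `y` even: `x` is even, and `z = 1` or we have `2² + 11² = 5³`. -/
lemma even_case {p q x y z : ℕ} (hp : p.Prime) (p5 : 5 ≤ p) (hq : q.Prime) (q5 : 5 ≤ q)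
    (hx0 : 0 < x) (hz0 : 0 < z) (hy : y % 2 = 0) (h : 2 ^ x + p ^ y = q ^ z) :
    x % 2 = 0 ∧ q % 3 = 2 ∧ (z = 1 ∨ (q = 5 ∧ p = 11 ∧ z = 3 ∧ x = 2 ∧ y = 2)) := by
  have hxz : x % 2 = 0 ∧ q % 3 = 2 ∧ z % 2 = 1 := by
    rcases prime_mod3 hp p5 with h3 | h3
    · exact mod3_one h3 hq q5 h
    · have h4 := mod3_two h3 hq q5 h
      have hx : x % 2 = 0 := by omega
      exact ⟨hx, (h4.2.1 hx).1, (h4.2.1 hx).2⟩
  refine ⟨hxz.1, hxz.2.1, ?_⟩
  rcases Nat.lt_or_ge z 3 with hz | hz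
  · left; omega
  · right
    obtain ⟨i, hi⟩ : ∃ i, x = 2 * i := ⟨x / 2, by omega⟩
    obtain ⟨j, hj⟩ : ∃ j, y = 2 * j := ⟨y / 2, by omega⟩
    subst hi hj
    have h' : 4 ^ i + p ^ (2 * j) = q ^ z := by
      rw [← h, two_pow_half (by omega)]; congr 2; omega
    obtain ⟨h1, h2, h3, h4, h5⟩ := lemB hp p5 hq q5 (by omega) hxz.2.2 hz h'
    exact ⟨h1, h2, h3, by omega, by omega⟩

lemma even_unique {p q x y x' y' : ℕ} (hp : p.Prime) (p5 : 5 ≤ p) (hq : q.Prime) (q5 : 5 ≤ q)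
    (hpq : p ≠ q) (hx0 : 0 < x) (hx0' : 0 < x') (hx : x % 2 = 0) (hx' : x' % 2 = 0)
    (hy : y % 2 = 0) (hy' : y' % 2 = 0) (h : 2 ^ x + p ^ y = q) (h' : 2 ^ x' + p ^ y' = q) :
    x = x' ∧ y = y' := by
  have hqZ : Prime (q : ℤ) := Nat.prime_iff_prime_int.1 hq
  obtain ⟨i, hi⟩ : ∃ i, x = 2 * i := ⟨x / 2, by omega⟩
  obtain ⟨j, hj⟩ : ∃ j, y = 2 * j := ⟨y / 2, by omega⟩
  obtain ⟨i', hi'⟩ : ∃ i, x' = 2 * i := ⟨x' / 2, by omega⟩
  obtain ⟨j', hj'⟩ : ∃ j, y' = 2 * j := ⟨y' / 2, by omega⟩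
  subst hi hj hi' hj'
  have hn2 : ¬ (q : ℤ) ∣ 2 := by
    intro hd
    have h1 : q ∣ 2 := by exact_mod_cast hd
    exact absurd (Nat.le_of_dvd (by norm_num) h1) (by omega)
  have hnp : ¬ (q : ℤ) ∣ p := by
    intro hd
    have h1 : q ∣ p := by exact_mod_cast hd
    exact hpq ((Nat.prime_dvd_prime_iff_eq hq hp).1 h1).symm
  have e1 : ((p : ℤ) ^ j) ^ 2 + ((2 : ℤ) ^ i) ^ 2 = (q : ℤ) ^ 1 := by
    have : ((2 ^ (2 * i) + p ^ (2 * j) : ℕ) : ℤ) = q := by rw [h]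
    push_cast at this
    rw [pow_one, ← this, ← pow_mul, ← pow_mul]; ring
  have e2 : ((p : ℤ) ^ j') ^ 2 + ((2 : ℤ) ^ i') ^ 2 = (q : ℤ) ^ 1 := by
    have : ((2 ^ (2 * i') + p ^ (2 * j') : ℕ) : ℤ) = q := by rw [h']
    push_cast at this
    rw [pow_one, ← this, ← pow_mul, ← pow_mul]; ring
  have key := unique_rep_one q hq 1 ((p : ℤ) ^ j) (2 ^ i) ((p : ℤ) ^ j') (2 ^ i') e1 e2
    (by
      intro hd
      rcases hqZ.dvd_or_dvd hd with hd | hd
      · rcases hqZ.dvd_or_dvd hd with hd | hd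
        · exact hn2 hd
        · exact hnp (hqZ.dvd_of_dvd_pow hd)
      · exact hn2 (hqZ.dvd_of_dvd_pow hd))
    (Int.odd_iff.2 (prime_odd hp p5)).pow (Int.odd_iff.2 (prime_odd hp p5)).pow
    ((by decide : Even (2 : ℤ)).pow_of_ne_zero (by omega))
  have k1 : p ^ (2 * j) = p ^ (2 * j') := by
    have := key.1
    rw [← pow_mul, ← pow_mul, mul_comm j, mul_comm j'] at this
    exact_mod_cast this
  have k2 : 2 ^ (2 * i) = 2 ^ (2 * i') := by omega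
  exact ⟨Nat.pow_right_injective le_rfl k2, Nat.pow_right_injective hp.two_le k1⟩

/-- mixed pair of solutions: `y` even, `y'` odd. -/
lemma mixed {p q x y z x' y' z' : ℕ} (hp : p.Prime) (p5 : 5 ≤ p) (hq : q.Prime) (q5 : 5 ≤ q)
    (hx0 : 0 < x) (hy0 : 0 < y) (hz0 : 0 < z) (hx0' : 0 < x')
    (hy : y % 2 = 0) (hy' : y' % 2 = 1) (h : 2 ^ x + p ^ y = q ^ z)
    (h' : 2 ^ x' + p ^ y' = q ^ z') :
    (p % 24 = 1 ∨ p % 24 = 17 ∨ p % 24 = 23) ∧
      ∃ i j, 0 < i ∧ 0 < j ∧ q = 4 ^ i + p ^ (2 * j) := by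
  obtain ⟨hx, hq3, hz⟩ := even_case hp p5 hq q5 hx0 hz0 hy h
  have hpodd : p % 2 = 1 := by have := hp.eq_two_or_odd; omega
  have hqodd : q % 2 = 1 := by have := hq.eq_two_or_odd; omega
  have hpy' := pow_mod8_odd hpodd y' hy'
  -- x' and z' for p = 2 mod 3
  have hodd2 : p % 3 = 2 → x' % 2 = 1 ∧ z' % 2 = 0 ∧ (p % 8 = 1 ∨ p % 8 = 7) := by
    intro hp3
    obtain ⟨h1, _, h3⟩ := mod3_two hp3 hq q5 h'
    have hx' : x' % 2 = 1 := by omega
    have hz' := h3 hx' hq3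
    refine ⟨hx', hz', ?_⟩
    obtain ⟨w, hw⟩ : ∃ w, z' = 2 * w := ⟨z' / 2, by omega⟩
    have h4 := pow_mod8_two hqodd w
    rw [← hw, ← h'] at h4
    rcases Nat.lt_or_ge x' 3 with h5 | h5
    · have : x' = 1 := by omega
      subst this
      omega
    · have h6 : 2 ^ x' % 8 = 0 := by
        obtain ⟨t, rfl⟩ : ∃ t, x' = t + 3 := ⟨x' - 3, by omega⟩
        rw [pow_add]; omega
      omega
  rcases hz with hz1 | ⟨_, h11, _⟩
  · subst hz1
    rw [pow_one] at h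
    have hform : q = 4 ^ (x / 2) + p ^ (2 * (y / 2)) := by
      rw [← h, two_pow_half hx]; congr 2; omega
    refine ⟨?_, x / 2, y / 2, by omega, by omega, hform⟩
    rcases prime_mod3 hp p5 with hp3 | hp3
    · obtain ⟨hx', _, hz'⟩ := mod3_one hp3 hq q5 h'
      have h48 : 2 ^ x' % 4 = 0 := by
        obtain ⟨t, rfl⟩ : ∃ t, x' = t + 2 := ⟨x' - 2, by omega⟩
        rw [pow_add]; omega
      have h48' : 2 ^ x % 4 = 0 := by
        obtain ⟨t, rfl⟩ : ∃ t, x = t + 2 := ⟨x - 2, by omega⟩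
        rw [pow_add]; omega
      have hpy : p ^ y % 8 = 1 := by
        obtain ⟨t, rfl⟩ : ∃ t, y = 2 * t := ⟨y / 2, by omega⟩
        exact pow_mod8_two hpodd t
      have hqz := pow_mod8_odd hqodd z' hz'
      have hp4 : p % 4 = 1 := by omega
      have hp8 : p % 8 ≠ 5 := by
        intro h5
        exact no_mod5 (γ := x' / 2) hp h5 hq (by omega : 0 < x / 2) (by omega : 0 < y / 2)
          (by omega) hy' hz' hform (by rw [← two_pow_half hx']; exact h')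
      omega
    · have := (hodd2 hp3).2.2
      omega
  · exfalso
    subst h11
    have := (hodd2 (by norm_num)).2.2
    omega

/-- The main classification for the bases `2` and `p`. -/
lemma classify {p q x y z x' y' z' : ℕ} (hp : p.Prime) (p5 : 5 ≤ p) (hq : q.Prime) (q5 : 5 ≤ q)
    (hpq : p ≠ q) (hx0 : 0 < x) (hy0 : 0 < y) (hz0 : 0 < z) (hx0' : 0 < x') (hy0' : 0 < y')
    (hz0' : 0 < z') (h : 2 ^ x + p ^ y = q ^ z) (h' : 2 ^ x' + p ^ y' = q ^ z')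
    (hyy : y % 2 = y' % 2) : x = x' ∧ y = y' ∧ z = z' := by
  rcases Nat.mod_two_eq_zero_or_one y with hy | hy
  · have hy' : y' % 2 = 0 := by omega
    obtain ⟨hx, _, hz⟩ := even_case hp p5 hq q5 hx0 hz0 hy h
    obtain ⟨hx', _, hz'⟩ := even_case hp p5 hq q5 hx0' hz0' hy' h'
    rcases hz with hz | ⟨hq5, hp11, hz3, hx2, hy2⟩
    · rcases hz' with hz' | ⟨hq5, hp11, hz3, hx2, hy2⟩
      · subst hz hz'
        rw [pow_one] at h h'
        obtain ⟨h1, h2⟩ := even_unique hp p5 hq q5 hpq hx0 hx0' hx hx' hy hy' h h'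
        exact ⟨h1, h2, rfl⟩
      · exfalso
        subst hz hq5 hp11
        have : 11 ^ 1 ≤ 11 ^ y := Nat.pow_le_pow_right (by norm_num) hy0
        rw [pow_one] at h this
        have h5 : 0 < 2 ^ x := by positivity
        omega
    · rcases hz' with hz' | ⟨_, _, hz3', hx2', hy2'⟩
      · exfalso
        subst hz' hq5 hp11
        have : 11 ^ 1 ≤ 11 ^ y' := Nat.pow_le_pow_right (by norm_num) hy0'
        rw [pow_one] at h' this
        have h5 : 0 < 2 ^ x' := by positivity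
        omega
      · exact ⟨by omega, by omega, by omega⟩
  · have hy' : y' % 2 = 1 := by omega
    rcases prime_mod3 hp p5 with hp3 | hp3
    · obtain ⟨h1, _, h2⟩ := mod3_one hp3 hq q5 h
      obtain ⟨h3, _, h4⟩ := mod3_one hp3 hq q5 h'
      exact lemC hp p5 hq q5 hpq hx0 hx0' hz0 hz0' hy hy' (by omega) (fun _ => ⟨h2, h4⟩) h h'
    · obtain ⟨h1, _, _⟩ := mod3_two hp3 hq q5 h
      obtain ⟨h3, _, _⟩ := mod3_two hp3 hq q5 h'
      exact lemC hp p5 hq q5 hpq hx0 hx0' hz0 hz0' hy hy' (by omega) (fun h0 => by omega) h h'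


end Pool.Agent.H88.Cao
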